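import Pool.Agent.Helper35.VRC.Props

/-!
Homomorphisms from amalgams to `ℤ ≀ Sym X`.
-/

namespace Pool.Agent.Helper35.VRC

universe u v w t

section Ind

variable {P : Type u} [Group P]

/-- The homomorphism `P → ℤ ≀ Sym (P/N)` induced from an additive function on `N`. -/
noncomputable def ind (N : Subgroup P) [N.Normal] (χ : P → ℤ) (hχ : IsChar N χ) :
    P →* Wr (P ⧸ N) where
  toFun p := ⟨Equiv.mulLeft (QuotientGroup.mk p),
    fun x => χ (((QuotientGroup.mk p : P ⧸ N) * x).out⁻¹ * p * x.out)⟩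
  map_one' := by
    ext x
    · simp
    · have h1 : ((QuotientGroup.mk (1 : P) : P ⧸ N) * x) = x := by
        rw [QuotientGroup.mk_one, one_mul]
      simp only [h1, Wr.one_shift]
      rw [mul_one, inv_mul_cancel, hχ.map_one]
  map_mul' p p' := by
    have hmem : ∀ (p : P) (x : P ⧸ N), ((QuotientGroup.mk p : P ⧸ N) * x).out⁻¹ * p * x.out ∈ N := by
      intro p x
      rw [← QuotientGroup.eq_one_iff]
      simp [QuotientGroup.mk_mul, QuotientGroup.mk_inv]
    ext x
    · simp [mul_assoc]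
    · have h1 : ((QuotientGroup.mk (p * p') : P ⧸ N) * x) =
          (QuotientGroup.mk p : P ⧸ N) * ((QuotientGroup.mk p' : P ⧸ N) * x) := by
        rw [QuotientGroup.mk_mul, mul_assoc]
      simp only [h1, Wr.mul_shift, Equiv.coe_mulLeft]
      rw [← hχ.map_mul _ (hmem _ _) _ (hmem _ _)]
      congr 1
      group

@[simp] lemma ind_perm (N : Subgroup P) [N.Normal] (χ : P → ℤ) (hχ : IsChar N χ) (p : P)
    (x : P ⧸ N) : (ind N χ hχ p).perm x = (QuotientGroup.mk p : P ⧸ N) * x := rfl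

lemma ind_shift (N : Subgroup P) [N.Normal] (χ : P → ℤ) (hχ : IsChar N χ) (p : P)
    (x : P ⧸ N) : (ind N χ hχ p).shift x =
      χ (((QuotientGroup.mk p : P ⧸ N) * x).out⁻¹ * p * x.out) := rfl

lemma ind_shift_mem (N : Subgroup P) [N.Normal] (χ : P → ℤ) (hχ : IsChar N χ) (p : P)
    (hp : p ∈ N) (x : P ⧸ N) : (ind N χ hχ p).shift x = χ (x.out⁻¹ * p * x.out) := by
  rw [ind_shift]
  have : (QuotientGroup.mk p : P ⧸ N) = 1 := (QuotientGroup.eq_one_iff p).2 hp
  rw [this, one_mul]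

/-- A family of homomorphisms to `ℤ ≀ Sym X`, indexed by `C`, gives a homomorphism to
`ℤ ≀ Sym (C × X)`. -/
def family {C : Type v} {X : Type w} (f : C → (P →* Wr X)) : P →* Wr (C × X) where
  toFun p := ⟨⟨fun a => (a.1, (f a.1 p).perm a.2), fun a => (a.1, (f a.1 p).perm.symm a.2),
    fun a => by simp, fun a => by simp⟩, fun a => (f a.1 p).shift a.2⟩
  map_one' := by
    ext x
    · simp
    · simp
    · simp
  map_mul' p p' := by
    ext x
    · simp
    · simp
    · simp

@[simp] lemma family_perm {C : Type v} {X : Type w} (f : C → (P →* Wr X)) (p : P) (a : C × X) :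
    (family f p).perm a = (a.1, (f a.1 p).perm a.2) := rfl

@[simp] lemma family_shift {C : Type v} {X : Type w} (f : C → (P →* Wr X)) (p : P) (a : C × X) :
    (family f p).shift a = (f a.1 p).shift a.2 := rfl

end Ind

section Chars

variable {P : Type u} [Group P] {N : Subgroup P} {χ : P → ℤ}

lemma conj_mem' (hN : N.Normal) {a : P} (ha : a ∈ N) (p : P) : p⁻¹ * a * p ∈ N := by
  have := hN.conj_mem a ha p⁻¹
  simpa using this

lemma IsChar.coset (hN : N.Normal) (hχ : IsChar N χ) {a : P} (ha : a ∈ N) (p : P) (x : P ⧸ N)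
    (hp : (QuotientGroup.mk p : P ⧸ N) = x) :
    χ (p⁻¹ * a * p) = χ (x.out⁻¹ * a * x.out) := by
  subst hp
  obtain ⟨m, hm⟩ := QuotientGroup.mk_out_eq_mul N p
  rw [hm]
  have h1 : (p * (m : P))⁻¹ * a * (p * m) = (m : P)⁻¹ * (p⁻¹ * a * p) * m := by group
  rw [h1, hχ.map_conj (conj_mem' hN ha p) m.2]

/-- additivity of weighted sums of conjugates -/
lemma IsChar.sum_conj (hN : N.Normal) (hχ : IsChar N χ) {ι : Type*} (s : Finset ι) (a : ι → ℤ)
    (y : ι → P) : IsChar N (fun p => ∑ i ∈ s, a i * χ ((y i)⁻¹ * p * y i)) := by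
  refine ⟨fun g hg h hh => ?_⟩
  rw [← Finset.sum_add_distrib]
  refine Finset.sum_congr rfl fun i _ => ?_
  have h1 : (y i)⁻¹ * (g * h) * y i = ((y i)⁻¹ * g * y i) * ((y i)⁻¹ * h * y i) := by group
  rw [h1, hχ.map_mul _ (conj_mem' hN hg _) _ (conj_mem' hN hh _)]
  ring

lemma isChar_zero (N : Subgroup P) : IsChar N (fun _ => 0) := ⟨fun _ _ _ _ => by simp⟩

end Chars

/-- The data of an amalgam (pushout) `G` of `P` and `Q` over `R`: commutativity, generation and
existence of lifts. -/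
structure IsAmalg {P : Type u} {Q : Type v} {R : Type w} {G : Type t} [Group P] [Group Q]
    [Group R] [Group G] (iP : R →* P) (iQ : R →* Q) (jP : P →* G) (jQ : Q →* G) : Prop where
  comm : ∀ r, jP (iP r) = jQ (iQ r)
  gen : ∀ K : Subgroup G, (∀ p, jP p ∈ K) → (∀ q, jQ q ∈ K) → ∀ g, g ∈ K
  lift : ∀ (H : Type (max u v)) [Group H] (f : P →* H) (f' : Q →* H),
    (∀ r, f (iP r) = f' (iQ r)) → ∃ F : G →* H, (∀ p, F (jP p) = f p) ∧ ∀ q, F (jQ q) = f' q

end Pool.Agent.Helper35.VRC
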