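import Pool.Agent.Helper35.VRC.Defs

/-!
Basic facts on virtual retracts, and the wreath product `ℤ ≀ Sym X`.
-/

namespace Pool.Agent.Helper35.VRC

universe u v w

/-- Permutations of `X` with integer shifts: the wreath product `ℤ ≀ Sym X`. -/
@[ext] structure Wr (X : Type u) where
  /-- the permutation -/
  perm : Equiv.Perm X
  /-- the shift -/
  shift : X → ℤ

namespace Wr

variable {X : Type u}

instance : Mul (Wr X) := ⟨fun a b => ⟨a.perm * b.perm, fun x => a.shift (b.perm x) + b.shift x⟩⟩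
instance : One (Wr X) := ⟨⟨1, fun _ => 0⟩⟩
instance : Inv (Wr X) := ⟨fun a => ⟨a.perm⁻¹, fun x => - a.shift (a.perm⁻¹ x)⟩⟩

@[simp] lemma mul_perm (a b : Wr X) : (a * b).perm = a.perm * b.perm := rfl
@[simp] lemma mul_shift (a b : Wr X) (x : X) :
    (a * b).shift x = a.shift (b.perm x) + b.shift x := rfl
@[simp] lemma one_perm : (1 : Wr X).perm = 1 := rfl
@[simp] lemma one_shift (x : X) : (1 : Wr X).shift x = 0 := rfl
@[simp] lemma inv_perm (a : Wr X) : (a⁻¹).perm = a.perm⁻¹ := rfl
@[simp] lemma inv_shift (a : Wr X) (x : X) : (a⁻¹).shift x = - a.shift (a.perm⁻¹ x) := rfl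

instance : Group (Wr X) :=
  Group.ofLeftAxioms
    (by
      intro a b c
      ext x
      · simp [mul_assoc]
      · simp [add_assoc])
    (by
      intro a
      ext x
      · simp
      · simp)
    (by
      intro a
      ext x
      · simp
      · simp)

/-- The permutation part, as a homomorphism. -/
def permHom : Wr X →* Equiv.Perm X where
  toFun := perm
  map_one' := rfl
  map_mul' _ _ := rfl

@[simp] lemma permHom_apply (a : Wr X) : permHom a = a.perm := rfl

end Wr

section Retract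

variable {G : Type u} [Group G]

lemma finiteIndex_comap {G' : Type v} [Group G'] (f : G →* G') (H : Subgroup G')
    [H.FiniteIndex] : (H.comap f).FiniteIndex :=
  ⟨by
    rw [Subgroup.index_comap]
    exact (Subgroup.isFiniteRelIndex_of_finiteIndex).relIndex_ne_zero⟩

/-- Transport of virtual retracts along automorphisms, in particular conjugation. -/
lemma IsVirtualRetract.map_equiv {G' : Type v} [Group G'] {H : Subgroup G}
    (h : IsVirtualRetract H) (φ : G ≃* G') : IsVirtualRetract (H.map (φ : G →* G')) := by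
  obtain ⟨K, hK, hHK, ρ, hρ⟩ := h
  refine ⟨K.map (φ : G →* G'), ⟨?_⟩, Subgroup.map_mono hHK,
    ((φ.subgroupMap H : _ →* _).comp ρ).comp ((φ.subgroupMap K).symm : _ →* _), ?_⟩
  · rw [Subgroup.index_map_equiv K φ]
    exact hK.index_ne_zero
  · rintro ⟨_, ⟨x, hx, rfl⟩⟩
    have h1 : (φ.subgroupMap K).symm (Subgroup.inclusion (Subgroup.map_mono hHK)
        ⟨(φ : G →* G') x, ⟨x, hx, rfl⟩⟩) = Subgroup.inclusion hHK ⟨x, hx⟩ := by
      rw [MulEquiv.symm_apply_eq]
      rfl
    change (φ.subgroupMap H) (ρ ((φ.subgroupMap K).symm (Subgroup.inclusion (Subgroup.map_mono hHK)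
        ⟨(φ : G →* G') x, ⟨x, hx, rfl⟩⟩))) = _
    rw [h1, hρ]
    rfl

lemma isVirtualRetract_zpowers_conj {g u : G}
    (h : IsVirtualRetract (Subgroup.zpowers g)) :
    IsVirtualRetract (Subgroup.zpowers (u * g * u⁻¹)) := by
  have := h.map_equiv (MulAut.conj u)
  rw [MonoidHom.map_zpowers] at this
  exact this

/-- If a homomorphism to a finite group is injective on a subgroup `A`, then `A` is a virtual
retract. -/
lemma isVirtualRetract_of_finite {W : Type v} [Group W] [Finite W] (θ : G →* W) (A : Subgroup G)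
    (hA : ∀ a ∈ A, θ a = 1 → a = 1) : IsVirtualRetract A := by
  have hinj : Function.Injective (θ.comp A.subtype) := by
    rw [injective_iff_map_eq_one]
    intro a ha
    have := hA a a.2 ha
    exact Subtype.ext this
  set f := θ.comp A.subtype with hf
  refine ⟨f.range.comap θ, finiteIndex_comap _ _, ?_, ?_⟩
  · intro a ha
    exact ⟨⟨a, ha⟩, rfl⟩
  · let ρ' : f.range.comap θ →* f.range :=
      { toFun := fun x => ⟨θ x, x.2⟩
        map_one' := by ext; simp
        map_mul' := fun x y => by ext; simp }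
    refine ⟨(MonoidHom.ofInjective hinj).symm.toMonoidHom.comp ρ', ?_⟩
    intro h
    simp only [MonoidHom.comp_apply, MulEquiv.coe_toMonoidHom]
    rw [MulEquiv.symm_apply_eq]
    rfl

/-- The main criterion for infinite cyclic subgroups: a homomorphism to `ℤ ≀ Sym X`, `X` finite,
with a nonzero shift of a power of `g` at a fixed point of that power. -/
lemma isVirtualRetract_of_shift {X : Type v} [Finite X] (Θ : G →* Wr X) (g : G) (x : X) (n : ℕ)
    (hx : (Θ (g ^ n)).perm x = x) (hs : (Θ (g ^ n)).shift x ≠ 0) :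
    IsVirtualRetract (Subgroup.zpowers g) := by
  classical
  set σ : Equiv.Perm X := (Θ g).perm with hσ
  have hσn : (σ ^ n) x = x := by
    have : (Θ (g ^ n)).perm = σ ^ n := by
      rw [map_pow, ← Wr.permHom_apply, map_pow]; rfl
    rw [← this]; exact hx
  -- sums over the cycle
  have hper : ∀ F : X → ℤ, ∀ j : ℤ,
      ∑ i ∈ Finset.range n, F ((σ ^ (i : ℤ) * σ ^ j) x) = ∑ i ∈ Finset.range n, F ((σ ^ (i : ℤ)) x) := by
    intro F j
    have key : ∀ j : ℤ, ∑ i ∈ Finset.range n, F ((σ ^ ((i : ℤ) + (j + 1))) x) =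
        ∑ i ∈ Finset.range n, F ((σ ^ ((i : ℤ) + j)) x) := by
      intro j
      have h1 := Finset.sum_range_succ (fun i : ℕ => F ((σ ^ ((i : ℤ) + j)) x)) n
      have h2 := Finset.sum_range_succ' (fun i : ℕ => F ((σ ^ ((i : ℤ) + j)) x)) n
      have h3 : (σ ^ ((n : ℤ) + j)) x = (σ ^ (((0 : ℕ) : ℤ) + j)) x := by
        rw [add_comm, zpow_add, Equiv.Perm.mul_apply, zpow_natCast, hσn]; simp
      have h4 : ∀ i : ℕ, ((i + 1 : ℕ) : ℤ) + j = (i : ℤ) + (j + 1) := by
        intro i; push_cast; ring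
      simp only [h4] at h2
      rw [h3] at h1
      linarith
    have key0 : ∀ j : ℤ, ∑ i ∈ Finset.range n, F ((σ ^ ((i : ℤ) + j)) x) =
        ∑ i ∈ Finset.range n, F ((σ ^ ((i : ℤ))) x) := by
      intro j
      induction j using Int.induction_on with
      | zero => simp
      | succ k ih => rw [key, ih]
      | pred k ih =>
        rw [← key]
        simpa using ih
    simp only [← zpow_add]
    exact key0 j
  let K1 : Subgroup G := (Subgroup.zpowers σ).comap (Wr.permHom.comp Θ)
  have hK1 : K1.FiniteIndex := finiteIndex_comap _ _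
  let χ : K1 →* Multiplicative ℤ :=
    { toFun := fun k => Multiplicative.ofAdd (∑ i ∈ Finset.range n, (Θ k).shift ((σ ^ (i : ℤ)) x))
      map_one' := by simp
      map_mul' := by
        intro k k'
        rw [← ofAdd_add]
        congr 1
        simp only [Subgroup.coe_mul, map_mul, Wr.mul_shift, Finset.sum_add_distrib]
        congr 1
        obtain ⟨j, hj⟩ := k'.2
        have hj' : (Θ (k' : G)).perm = σ ^ j := hj.symm
        rw [hj', ← hper (Θ (k : G)).shift j]
        refine Finset.sum_congr rfl fun i _ => ?_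
        rw [← Equiv.Perm.mul_apply, ← zpow_add, ← zpow_add, add_comm] }
  have hgK1 : g ∈ K1 := ⟨1, by simp [hσ]⟩
  have hshift : ∀ m : ℕ, (Θ (g ^ m)).shift x = ∑ i ∈ Finset.range m, (Θ g).shift ((σ ^ (i : ℤ)) x) := by
    intro m
    induction m with
    | zero => simp
    | succ m ih =>
      rw [pow_succ', map_mul, Wr.mul_shift, ih, Finset.sum_range_succ, add_comm]
      congr 2
      have : (Θ (g ^ m)).perm = σ ^ m := by
        rw [map_pow, ← Wr.permHom_apply, map_pow]; rfl
      rw [this, zpow_natCast]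
  set c : ℤ := (χ ⟨g, hgK1⟩).toAdd with hc
  have hc0 : c ≠ 0 := by
    rw [hc]
    change ∑ i ∈ Finset.range n, (Θ g).shift ((σ ^ (i : ℤ)) x) ≠ 0
    rw [← hshift]; exact hs
  let Zc : Subgroup (Multiplicative ℤ) := Subgroup.zpowers (Multiplicative.ofAdd c)
  have hZc : Zc.FiniteIndex := by
    have h1 : Finite (ℤ ⧸ AddSubgroup.zmultiples c) := by
      have : NeZero c.natAbs := ⟨by simpa using hc0⟩
      exact Finite.of_equiv _ (Int.quotientZMultiplesEquivZMod c).symm.toEquiv
    refine ⟨?_⟩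
    have h2 : (AddSubgroup.zmultiples c).index ≠ 0 := AddSubgroup.index_ne_zero_of_finite
    intro h3
    apply h2
    rw [← h3]
    rfl
  let K : Subgroup G := (Zc.comap χ).map K1.subtype
  have hK : K.FiniteIndex := by
    refine ⟨?_⟩
    rw [Subgroup.index_map_subtype]
    refine mul_ne_zero ?_ hK1.index_ne_zero
    rw [Subgroup.index_comap]
    exact (Subgroup.isFiniteRelIndex_of_finiteIndex (h := hZc)).relIndex_ne_zero
  -- the retraction
  have hKmem : ∀ k : K, ∃ h1 : (k : G) ∈ K1, c ∣ (χ ⟨k, h1⟩).toAdd := by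
    rintro ⟨_, ⟨y, hy, rfl⟩⟩
    refine ⟨y.2, ?_⟩
    obtain ⟨j, hj⟩ := hy
    refine ⟨j, ?_⟩
    have hj' : Multiplicative.ofAdd c ^ j = χ y := hj
    have : (χ y).toAdd = c * j := by
      rw [← hj', toAdd_zpow, toAdd_ofAdd, smul_eq_mul, mul_comm]
    exact this
  let ρ : K →* Subgroup.zpowers g :=
    { toFun := fun k => ⟨g ^ ((χ ⟨k, (hKmem k).choose⟩).toAdd / c), ⟨_, rfl⟩⟩
      map_one' := by
        apply Subtype.ext
        have : (⟨((1 : K) : G), (hKmem 1).choose⟩ : K1) = 1 := rfl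
        simp only [this]
        simp
      map_mul' := by
        intro k k'
        apply Subtype.ext
        have : (⟨((k * k' : K) : G), (hKmem (k * k')).choose⟩ : K1) =
          ⟨k, (hKmem k).choose⟩ * ⟨k', (hKmem k').choose⟩ := rfl
        simp only [this, map_mul, toAdd_mul]
        rw [Int.add_ediv_of_dvd_left (hKmem k).choose_spec, zpow_add]
        rfl }
  have hgK : Subgroup.zpowers g ≤ K := by
    rw [Subgroup.zpowers_le]
    exact ⟨⟨g, hgK1⟩, ⟨1, by simp [hc]⟩, rfl⟩
  refine ⟨K, hK, hgK, ρ, ?_⟩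
  rintro ⟨_, ⟨j, rfl⟩⟩
  apply Subtype.ext
  change g ^ ((χ ⟨g ^ j, _⟩).toAdd / c) = g ^ j
  have h1 : (⟨g ^ j, (hKmem (Subgroup.inclusion hgK ⟨g ^ j, ⟨j, rfl⟩⟩)).choose⟩ : K1) =
      ⟨g, hgK1⟩ ^ j := by
    apply Subtype.ext
    simp
  have h2 : (χ (⟨g, hgK1⟩ ^ j)).toAdd / c = j := by
    rw [map_zpow, toAdd_zpow, ← hc, smul_eq_mul]
    exact Int.mul_ediv_cancel _ hc0
  calc g ^ ((χ ⟨g ^ j, (hKmem (Subgroup.inclusion hgK ⟨g ^ j, ⟨j, rfl⟩⟩)).choose⟩).toAdd / c)
      = g ^ ((χ (⟨g, hgK1⟩ ^ j)).toAdd / c) := by rw [h1]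
    _ = g ^ j := by rw [h2]

end Retract

end Pool.Agent.Helper35.VRC
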