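import Mathlib

/-!
Definitions for the (VRC) problem: virtual retracts, property (VRC), virtually cyclic groups and
amalgamated free products.
-/

namespace Pool.Agent.Helper35.VRC

universe u v

/-- A subgroup `H` of a group `G` is a virtual retract of `G`: there is a finite index subgroup
`K` of `G` containing `H` and a homomorphism `ρ : K → H` whose restriction to `H` is the
identity. -/
def IsVirtualRetract {G : Type u} [Group G] (H : Subgroup G) : Prop :=
  ∃ K : Subgroup G, K.FiniteIndex ∧ ∃ hHK : H ≤ K, ∃ ρ : K →* H,
    ∀ h : H, ρ (Subgroup.inclusion hHK h) = h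

/-- Property (VRC): every cyclic subgroup is a virtual retract. -/
def HasVRC (G : Type u) [Group G] : Prop :=
  ∀ g : G, IsVirtualRetract (Subgroup.zpowers g)

/-- A group is virtually cyclic if it has a cyclic subgroup of finite index. -/
def IsVirtuallyCyclic (G : Type u) [Group G] : Prop :=
  ∃ C : Subgroup G, IsCyclic C ∧ C.FiniteIndex

section Amalgam

variable {P : Type u} {Q : Type v} [Group P] [Group Q]

/-- The relators `r * (e r)⁻¹` (`r ∈ R`) in the free product `P * Q`, identifying a subgroup `R`
of `P` with a subgroup `S` of `Q` via an isomorphism `e : R ≃* S`. -/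
def amalgamRel (R : Subgroup P) (S : Subgroup Q) (e : R ≃* S) : Set (Monoid.Coprod P Q) :=
  {x | ∃ r : R, x = Monoid.Coprod.inl (r : P) * (Monoid.Coprod.inr ((e r : S) : Q))⁻¹}

/-- The amalgamated free product `P *_{R = S} Q`: the quotient of the free product `P * Q` by the
normal closure of the elements `r * (e r)⁻¹`, `r ∈ R`. -/
def Amalgam (R : Subgroup P) (S : Subgroup Q) (e : R ≃* S) : Type (max u v) :=
  Monoid.Coprod P Q ⧸ Subgroup.normalClosure (amalgamRel R S e)

instance (R : Subgroup P) (S : Subgroup Q) (e : R ≃* S) : Group (Amalgam R S e) :=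
  inferInstanceAs (Group (Monoid.Coprod P Q ⧸ Subgroup.normalClosure (amalgamRel R S e)))

end Amalgam

end Pool.Agent.Helper35.VRC
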