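import Pool.Agent.Helper35.VRC.Amalg

/-!
The elliptic and the hyperbolic constructions.
-/

namespace Pool.Agent.Helper35.VRC

universe u v w t

variable {P : Type u} {Q : Type v} {R : Type w} {G : Type t} [Group P] [Group Q]
    [Group R] [Group G] {iP : R →* P} {iQ : R →* Q} {jP : P →* G} {jQ : Q →* G}

/-- The exchange of the roles of `P` and `Q`. -/
lemma IsAmalg.symm (h : IsAmalg iP iQ jP jQ) : IsAmalg iQ iP jQ jP where
  comm r := (h.comm r).symm
  gen K h1 h2 g := h.gen K h2 h1 g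
  lift H _ f f' hff := by
    obtain ⟨F, hF1, hF2⟩ := h.lift H f' f (fun r => (hff r).symm)
    exact ⟨F, hF2, hF1⟩

/-- weights on conjugates -/
noncomputable def wsum {N : Subgroup P} {F' : Type v} [Fintype (P ⧸ N)] [Fintype F']
    (χ : P → ℤ) (wt : F' → ℤ) (c : (P ⧸ N) × F' → Bool) (a : P) : ℤ :=
  ∑ yy : (P ⧸ N) × F', (if c yy then wt yy.2 else 0) * χ (yy.1.out⁻¹ * a * yy.1.out)

lemma isChar_wsum {N : Subgroup P} (hN : N.Normal) {F' : Type v} [Fintype (P ⧸ N)] [Fintype F']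
    {χ : P → ℤ} (hχ : IsChar N χ) (wt : F' → ℤ) (c : (P ⧸ N) × F' → Bool) :
    IsChar N (wsum χ wt c) :=
  hχ.sum_conj hN Finset.univ (fun yy : (P ⧸ N) × F' => if c yy then wt yy.2 else 0)
    (fun yy => yy.1.out)

/-- The elliptic construction. -/
theorem IsAmalg.elliptic (h : IsAmalg iP iQ jP jQ) (N : Subgroup P) [hN : N.Normal]
    [hNf : N.FiniteIndex] (N' : Subgroup Q) [hN' : N'.Normal] [hNf' : N'.FiniteIndex]
    (ρ : R) (hM : N.comap iP = Subgroup.zpowers ρ) (hM' : N'.comap iQ = Subgroup.zpowers ρ)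
    [Fintype (P ⧸ N)] [Fintype (Q ⧸ N')]
    (χ : P → ℤ) (hχ : IsChar N χ) (χ' : Q → ℤ) (hχ' : IsChar N' χ') (wt : Q ⧸ N' → ℤ)
    (hwt : ∀ (y : P ⧸ N) (y' : Q ⧸ N'), χ (y.out⁻¹ * iP ρ * y.out) * wt y' =
      χ (y.out⁻¹ * iP ρ * y.out) * χ' (y'.out⁻¹ * iQ ρ * y'.out)) :
    ∃ Θ : G →* Wr ((((P ⧸ N) × (Q ⧸ N') → Bool) × (Q ⧸ N')) × (P ⧸ N)),
      ∀ p, Θ (jP p) = family (fun c : ((P ⧸ N) × (Q ⧸ N') → Bool) × (Q ⧸ N') =>
        ind N (wsum χ wt c.1) (isChar_wsum hN hχ wt c.1)) p := by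
  classical
  -- the `Q`-side
  let κ : P ⧸ N → ℤ := fun y => χ (y.out⁻¹ * iP ρ * y.out)
  let κ' : Q ⧸ N' → ℤ := fun y' => χ' (y'.out⁻¹ * iQ ρ * y'.out)
  let swp : ((P ⧸ N) × (Q ⧸ N') → Bool) → ((Q ⧸ N') × (P ⧸ N) → Bool) := fun c yy => c yy.swap
  let fP : P →* Wr ((((P ⧸ N) × (Q ⧸ N') → Bool) × (Q ⧸ N')) × (P ⧸ N)) :=
    family (fun c : ((P ⧸ N) × (Q ⧸ N') → Bool) × (Q ⧸ N') =>
        ind N (wsum χ wt c.1) (isChar_wsum hN hχ wt c.1))
  let fQ : Q →* Wr ((((P ⧸ N) × (Q ⧸ N') → Bool) × (P ⧸ N)) × (Q ⧸ N')) :=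
    family (fun c : ((P ⧸ N) × (Q ⧸ N') → Bool) × (P ⧸ N) =>
        ind N' (wsum χ' κ (swp c.1)) (isChar_wsum hN' hχ' κ (swp c.1)))
  have hρ : iP ρ ∈ N := by
    have : ρ ∈ N.comap iP := by rw [hM]; exact Subgroup.mem_zpowers ρ
    exact this
  have hρ' : iQ ρ ∈ N' := by
    have : ρ ∈ N'.comap iQ := by rw [hM']; exact Subgroup.mem_zpowers ρ
    exact this
  let τ : ((((P ⧸ N) × (Q ⧸ N') → Bool) × (Q ⧸ N')) × (P ⧸ N)) ≃
      ((((P ⧸ N) × (Q ⧸ N') → Bool) × (P ⧸ N)) × (Q ⧸ N')) :=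
    { toFun := fun a => ((fun yy => a.1.1 (a.2⁻¹ * yy.1, a.1.2 * yy.2), a.2), a.1.2)
      invFun := fun b => ((fun yy => b.1.1 (b.1.2 * yy.1, b.2⁻¹ * yy.2), b.2), b.1.2)
      left_inv := by
        rintro ⟨⟨c, x'⟩, x⟩
        simp
      right_inv := by
        rintro ⟨⟨c, x⟩, x'⟩
        simp }
  have hstab : ∀ x h, ((fP.comp iP) h).perm x = x ↔ h ∈ Subgroup.zpowers ρ := by
    rintro ⟨c, x⟩ r
    rw [← hM, Subgroup.mem_comap, ← QuotientGroup.eq_one_iff]
    simp [fP, Prod.ext_iff]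
  have hstab' : ∀ x h, ((fQ.comp iQ) h).perm x = x ↔ h ∈ Subgroup.zpowers ρ := by
    rintro ⟨c, x⟩ r
    rw [← hM', Subgroup.mem_comap, ← QuotientGroup.eq_one_iff]
    simp [fQ, Prod.ext_iff]
  -- shifts of `ρ`
  have hshP : ∀ (c : (P ⧸ N) × (Q ⧸ N') → Bool) (x' : Q ⧸ N') (x : P ⧸ N),
      (fP (iP ρ)).shift ((c, x'), x) =
        ∑ yy : (P ⧸ N) × (Q ⧸ N'), (if c yy then κ' yy.2 else 0) * κ (x * yy.1) := by
    intro c x' x
    simp only [fP, family_shift]
    rw [ind_shift_mem _ _ _ _ hρ]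
    unfold wsum
    refine Finset.sum_congr rfl fun yy _ => ?_
    have h1 : yy.1.out⁻¹ * (x.out⁻¹ * iP ρ * x.out) * yy.1.out =
        (x.out * yy.1.out)⁻¹ * iP ρ * (x.out * yy.1.out) := by group
    rw [h1, hχ.coset hN hρ (x.out * yy.1.out) (x * yy.1) (by simp [QuotientGroup.mk_mul])]
    split_ifs
    · have := hwt (x * yy.1) yy.2
      simp only [κ, κ']
      rw [mul_comm, this, mul_comm]
    · simp
  have hshQ : ∀ (c : (P ⧸ N) × (Q ⧸ N') → Bool) (x : P ⧸ N) (x' : Q ⧸ N'),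
      (fQ (iQ ρ)).shift ((c, x), x') =
        ∑ yy : (P ⧸ N) × (Q ⧸ N'), (if c yy then κ yy.1 else 0) * κ' (x' * yy.2) := by
    intro c x x'
    simp only [fQ, family_shift]
    rw [ind_shift_mem _ _ _ _ hρ']
    unfold wsum
    rw [← (Equiv.prodComm (P ⧸ N) (Q ⧸ N')).sum_comp]
    refine Finset.sum_congr rfl fun yy _ => ?_
    simp only [Equiv.prodComm_apply, Prod.swap, swp]
    have h1 : yy.2.out⁻¹ * (x'.out⁻¹ * iQ ρ * x'.out) * yy.2.out =
        (x'.out * yy.2.out)⁻¹ * iQ ρ * (x'.out * yy.2.out) := by group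
    rw [h1, hχ'.coset hN' hρ' (x'.out * yy.2.out) (x' * yy.2) (by simp [QuotientGroup.mk_mul])]
  have hτρ : ∀ a, (fP (iP ρ)).shift a = (fQ (iQ ρ)).shift (τ a) := by
    rintro ⟨⟨c, x'⟩, x⟩
    rw [hshP]
    change _ = (fQ (iQ ρ)).shift ((fun yy => c (x⁻¹ * yy.1, x' * yy.2), x), x')
    rw [hshQ]
    let E : (P ⧸ N) × (Q ⧸ N') ≃ (P ⧸ N) × (Q ⧸ N') :=
      Equiv.prodCongr (Equiv.mulLeft x) (Equiv.mulLeft x'⁻¹)
    rw [← E.sum_comp (fun yy => (if c (x⁻¹ * yy.1, x' * yy.2) = true then κ yy.1 else 0) *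
      κ' (x' * yy.2))]
    refine Finset.sum_congr rfl fun yy _ => ?_
    have hE : E yy = (x * yy.1, x'⁻¹ * yy.2) := rfl
    rw [hE]
    simp only [inv_mul_cancel_left, mul_inv_cancel_left]
    split_ifs
    · ring
    · simp
  have hτ : ∀ a, ∀ n ∈ Subgroup.zpowers ρ, ((fP.comp iP) n).shift a = ((fQ.comp iQ) n).shift (τ a) := by
    rintro a n ⟨j, rfl⟩
    have key : ∀ (X : Type (max u v)) (F : R →* Wr X) (hF : ∀ x, (F ρ).perm x = x) (j : ℤ) (x : X),
        (F (ρ ^ j)).perm x = x ∧ (F (ρ ^ j)).shift x = j * (F ρ).shift x := by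
      intro X F hF j x
      have hp : (F ρ).perm = 1 := Equiv.ext hF
      have hpj : ∀ j : ℤ, (F (ρ ^ j)).perm = 1 := by
        intro j
        rw [map_zpow, ← Wr.permHom_apply, map_zpow, Wr.permHom_apply, hp, one_zpow]
      refine ⟨by rw [hpj]; rfl, ?_⟩
      induction j using Int.induction_on with
      | zero => simp
      | succ k ih =>
        rw [zpow_add_one, map_mul, Wr.mul_shift, hF, ih]
        ring
      | pred k ih =>
        have h2 : (F ρ⁻¹).perm x = x := by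
          rw [map_inv, Wr.inv_perm, hp]; rfl
        have h3 : (F ρ⁻¹).shift x = - (F ρ).shift x := by
          rw [map_inv, Wr.inv_shift, hp]; rfl
        rw [zpow_sub_one, map_mul, Wr.mul_shift, h2, h3, ih]
        ring
    have k1 := (key _ (fP.comp iP) (fun x => (hstab x ρ).2 (Subgroup.mem_zpowers ρ)) j a).2
    have k2 := (key _ (fQ.comp iQ) (fun x => (hstab' x ρ).2 (Subgroup.mem_zpowers ρ)) j (τ a)).2
    change ((fP.comp iP) (ρ ^ j)).shift a = ((fQ.comp iQ) (ρ ^ j)).shift (τ a)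
    rw [k1, k2]
    change j * (fP (iP ρ)).shift a = j * (fQ (iQ ρ)).shift (τ a)
    rw [hτρ]
  obtain ⟨e, b, heb, -⟩ := glue (ι := Empty) hstab hstab' τ hτ (fun i => i.elim) (fun i => i.elim)
    (fun i => i.elim) (fun i => i.elim) (fun i => i.elim) (fun i => i.elim)
  obtain ⟨Θ, hΘ, -⟩ := h.lift _ fP ((Wr.transport e b).comp fQ) (fun r => (heb r).symm)
  exact ⟨Θ, hΘ⟩

/-- The hyperbolic construction: alternating products of elements outside `R` (modulo suitable finite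
index normal subgroups) get a nonzero shift at a fixed point. -/
theorem IsAmalg.hyperbolic (h : IsAmalg iP iQ jP jQ) (N : Subgroup P) [hN : N.Normal]
    [hNf : N.FiniteIndex] (N' : Subgroup Q) [hN' : N'.Normal] [hNf' : N'.FiniteIndex]
    (hM : N.comap iP = N'.comap iQ) (L : List (P × Q)) (hL : L ≠ [])
    (hLP : ∀ a ∈ L, ∀ x : R, iP x * a.1 ∉ N) (hLQ : ∀ a ∈ L, ∀ x : R, iQ x * a.2 ∉ N') :
    ∃ (X : Type (max u v)) (_ : Finite X) (Θ : G →* Wr X) (x : X),
      (Θ (L.map fun a => jP a.1 * jQ a.2).prod).perm x = x ∧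
      (Θ (L.map fun a => jP a.1 * jQ a.2).prod).shift x = 1 := by
  classical
  obtain ⟨m, hm⟩ : ∃ m, L.length = m + 1 := by
    cases L with
    | nil => exact absurd rfl hL
    | cons a L => exact ⟨L.length, rfl⟩
  let fP : P →* Wr (((Q ⧸ N') × Fin (m + 1)) × (P ⧸ N)) :=
    family (fun _ : (Q ⧸ N') × Fin (m + 1) => ind N (fun _ => 0) (isChar_zero N))
  let fQ : Q →* Wr (((P ⧸ N) × Fin (m + 1)) × (Q ⧸ N')) :=
    family (fun _ : (P ⧸ N) × Fin (m + 1) => ind N' (fun _ => 0) (isChar_zero N'))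
  have hfPs : ∀ p a, (fP p).shift a = 0 := fun p a => rfl
  have hfQs : ∀ p a, (fQ p).shift a = 0 := fun p a => rfl
  have hfPp : ∀ p a x, (fP p).perm (a, x) = (a, (QuotientGroup.mk p : P ⧸ N) * x) :=
    fun p a x => rfl
  have hfQp : ∀ p a x, (fQ p).perm (a, x) = (a, (QuotientGroup.mk p : Q ⧸ N') * x) :=
    fun p a x => rfl
  let τ : (((Q ⧸ N') × Fin (m + 1)) × (P ⧸ N)) ≃ (((P ⧸ N) × Fin (m + 1)) × (Q ⧸ N')) :=
    { toFun := fun a => ((a.2, a.1.2), a.1.1)
      invFun := fun b => ((b.2, b.1.2), b.1.1)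
      left_inv := fun _ => rfl
      right_inv := fun _ => rfl }
  have hstab : ∀ x h, ((fP.comp iP) h).perm x = x ↔ h ∈ N.comap iP := by
    rintro ⟨c, x⟩ r
    rw [Subgroup.mem_comap, ← QuotientGroup.eq_one_iff]
    simp [hfPp, Prod.ext_iff]
  have hstab' : ∀ x h, ((fQ.comp iQ) h).perm x = x ↔ h ∈ N.comap iP := by
    rintro ⟨c, x⟩ r
    rw [hM, Subgroup.mem_comap, ← QuotientGroup.eq_one_iff]
    simp [hfQp, Prod.ext_iff]
  -- the marks
  let pp : Fin (m + 1) → P := fun i => (L[(i : ℕ)]'(by omega)).1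
  let qq : Fin (m + 1) → Q := fun i => (L[(i : ℕ)]'(by omega)).2
  have hpp : ∀ i (r : R), (QuotientGroup.mk (iP r) : P ⧸ N) * QuotientGroup.mk (pp i) ≠ 1 := by
    intro i r hcon
    rw [← QuotientGroup.mk_mul, QuotientGroup.eq_one_iff] at hcon
    exact hLP _ (List.getElem_mem _) r hcon
  have hqq : ∀ i (r : R), (QuotientGroup.mk (iQ r) : Q ⧸ N') * QuotientGroup.mk (qq i) ≠ 1 := by
    intro i r hcon
    rw [← QuotientGroup.mk_mul, QuotientGroup.eq_one_iff] at hcon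
    exact hLQ _ (List.getElem_mem _) r hcon
  let xx : Fin (m + 1) × Bool → (((Q ⧸ N') × Fin (m + 1)) × (P ⧸ N)) := fun i =>
    ((1, i.1), if i.2 then QuotientGroup.mk (pp i.1) else 1)
  let yy : Fin (m + 1) × Bool → (((P ⧸ N) × Fin (m + 1)) × (Q ⧸ N')) := fun i =>
    if i.2 then ((1, i.1 - 1), 1) else ((1, i.1), QuotientGroup.mk (qq i.1))
  let β : Fin (m + 1) × Bool → ℤ := fun i => if i.2 = true ∧ i.1 = 0 then 1 else 0
  have hx : ∀ i j k, ((fP.comp iP) k).perm (xx i) = xx j → i = j := by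
    rintro ⟨i, bi⟩ ⟨j, bj⟩ k hk
    simp only [MonoidHom.comp_apply, xx, hfPp, Prod.mk.injEq, true_and] at hk
    obtain ⟨rfl, hk⟩ := hk
    rcases bi with _ | _ <;> rcases bj with _ | _
    · rfl
    · exfalso
      simp only [Bool.false_eq_true, if_false, if_true, mul_one] at hk
      apply hpp i k⁻¹
      rw [← hk, map_inv, QuotientGroup.mk_inv, inv_mul_cancel]
    · exfalso
      simp only [Bool.false_eq_true, if_false, if_true] at hk
      exact hpp i k hk
    · rfl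
  have hy : ∀ i j k, ((fQ.comp iQ) k).perm (yy i) = yy j → i = j := by
    rintro ⟨i, bi⟩ ⟨j, bj⟩ k hk
    rcases bi with _ | _ <;> rcases bj with _ | _
    · simp only [MonoidHom.comp_apply, yy, hfQp, Bool.false_eq_true, if_false, Prod.mk.injEq,
        true_and] at hk
      obtain ⟨rfl, hk⟩ := hk
      rfl
    · exfalso
      simp only [MonoidHom.comp_apply, yy, hfQp, Bool.false_eq_true, if_false, if_true,
        Prod.mk.injEq, true_and] at hk
      exact hqq i k hk.2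
    · exfalso
      simp only [MonoidHom.comp_apply, yy, hfQp, Bool.false_eq_true, if_false, if_true,
        Prod.mk.injEq, true_and, mul_one] at hk
      apply hqq j k⁻¹
      rw [← hk.2, map_inv, QuotientGroup.mk_inv, inv_mul_cancel]
    · simp only [MonoidHom.comp_apply, yy, hfQp, if_true, Prod.mk.injEq, true_and] at hk
      have := hk.1
      have : i = j := sub_left_injective this
      rw [this]
  obtain ⟨e, b, heb, hmk⟩ := glue hstab hstab' τ (fun _ _ _ => rfl) xx yy β hx hy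
    (fun _ _ _ => rfl)
  obtain ⟨Θ, hΘP, hΘQ⟩ := h.lift _ fP ((Wr.transport e b).comp fQ) (fun r => (heb r).symm)
  refine ⟨_, inferInstance, Θ, xx (0, true), ?_⟩
  -- one step
  have hstep : ∀ i : Fin (m + 1), (Θ (jP (pp i) * jQ (qq i))).perm (xx (i + 1, true)) = xx (i, true) ∧
      (Θ (jP (pp i) * jQ (qq i))).shift (xx (i + 1, true)) = if i + 1 = 0 then 1 else 0 := by
    intro i
    have h1 : e (xx (i + 1, true)) = ((1, i), 1) := by
      rw [(hmk (i + 1, true)).1]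
      simp [yy]
    have h2 : (fQ (qq i)).perm ((1, i), 1) = yy (i, false) := by
      simp [yy, hfQp]
    have h3 : e.symm (yy (i, false)) = xx (i, false) := by
      rw [Equiv.symm_apply_eq, (hmk (i, false)).1]
    have h4 : (fP (pp i)).perm (xx (i, false)) = xx (i, true) := by
      simp [xx, hfPp]
    rw [map_mul, hΘP, hΘQ, Wr.mul_perm, Wr.mul_shift, Equiv.Perm.mul_apply, MonoidHom.comp_apply,
      Wr.transport_perm, Wr.transport_shift, h1, h2, h3, h4, hfPs, hfQs, (hmk (i, false)).2,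
      (hmk (i + 1, true)).2]
    refine ⟨rfl, ?_⟩
    simp [β]
  -- all suffixes
  have hall : ∀ s, s ≤ m → ∀ k : ℕ, ∀ hk : k < m + 1, k + s = m →
      (Θ ((L.drop k).map fun a => jP a.1 * jQ a.2).prod).perm (xx (0, true)) = xx (⟨k, hk⟩, true) ∧
      (Θ ((L.drop k).map fun a => jP a.1 * jQ a.2).prod).shift (xx (0, true)) = 1 := by
    intro s
    induction s with
    | zero =>
      intro _ k hk hks
      have hkm : k = m := by omega
      subst hkm
      have h1 : L.drop k = [L[k]'(by omega)] := by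
        rw [List.drop_eq_getElem_cons (by omega), List.drop_eq_nil_of_le (by omega)]
      rw [h1, List.map_singleton, List.prod_singleton]
      have h2 := hstep ⟨k, hk⟩
      have h3 : (⟨k, hk⟩ : Fin (k + 1)) + 1 = 0 := by
        have : (⟨k, hk⟩ : Fin (k + 1)) = Fin.last k := rfl
        rw [this, Fin.last_add_one]
      rw [h3, if_pos rfl] at h2
      exact h2
    | succ s ih =>
      intro hs k hk hks
      have h1 : L.drop k = (L[k]'(by omega)) :: L.drop (k + 1) := List.drop_eq_getElem_cons (by omega)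
      obtain ⟨ih1, ih2⟩ := ih (by omega) (k + 1) (by omega) (by omega)
      have h2 := hstep ⟨k, hk⟩
      have h3 : (⟨k, hk⟩ : Fin (m + 1)) + 1 = ⟨k + 1, by omega⟩ := by
        apply Fin.ext
        rw [Fin.val_add_one_of_lt]
        rw [Fin.lt_def]
        simp
        omega
      have h4 : (⟨k + 1, by omega⟩ : Fin (m + 1)) ≠ 0 := by
        intro hcon
        have := congrArg Fin.val hcon
        simp at this
      rw [h3, if_neg h4] at h2
      rw [h1, List.map_cons, List.prod_cons, map_mul, Wr.mul_perm, Wr.mul_shift,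
        Equiv.Perm.mul_apply, ih1, ih2]
      refine ⟨h2.1, ?_⟩
      have h5 := h2.2
      change (Θ (jP (pp ⟨k, hk⟩) * jQ (qq ⟨k, hk⟩))).shift _ + 1 = 1
      rw [h5]
      norm_num
  have := hall m le_rfl 0 (by omega) (by omega)
  simpa using this

end Pool.Agent.Helper35.VRC
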