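import Pool.Agent.Helper35.VRC.Basic

/-!
The gluing lemma: two homomorphisms `R → ℤ ≀ Sym X`, `R → ℤ ≀ Sym Y` with the same point
stabilisers and the same distribution of shifts of the stabiliser are conjugate.
-/

namespace Pool.Agent.Helper35.VRC

universe u v w

namespace Wr

variable {X : Type u} {Y : Type v}

/-- Transport of an element of `ℤ ≀ Sym Y` to `ℤ ≀ Sym X` along a bijection `e : X ≃ Y` and a
function `b : X → ℤ`. -/
def transport (e : X ≃ Y) (b : X → ℤ) : Wr Y →* Wr X where
  toFun w := ⟨(e.trans w.perm).trans e.symm,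
    fun x => w.shift (e x) - b (e.symm (w.perm (e x))) + b x⟩
  map_one' := by
    ext x
    · simp
    · simp
  map_mul' a c := by
    ext x
    · simp
    · simp
      ring

@[simp] lemma transport_perm (e : X ≃ Y) (b : X → ℤ) (w : Wr Y) (x : X) :
    (transport e b w).perm x = e.symm (w.perm (e x)) := rfl

@[simp] lemma transport_shift (e : X ≃ Y) (b : X → ℤ) (w : Wr Y) (x : X) :
    (transport e b w).shift x = w.shift (e x) - b (e.symm (w.perm (e x))) + b x := rfl

end Wr

variable {R : Type w} [Group R] {X : Type u} {Y : Type v}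

/-- A conjugation defined on an invariant set `A`. -/
structure PData (f : R →* Wr X) (f' : R →* Wr Y) (A : Set X) (e : X → Y) (b : X → ℤ) : Prop where
  inv : ∀ x ∈ A, ∀ h, (f h).perm x ∈ A
  inj : Set.InjOn e A
  equi : ∀ x ∈ A, ∀ h, e ((f h).perm x) = (f' h).perm (e x)
  coc : ∀ x ∈ A, ∀ h, (f' h).shift (e x) = (f h).shift x + b ((f h).perm x) - b x

variable {f : R →* Wr X} {f' : R →* Wr Y}

/-- The orbit of a point. -/
def orb (f : R →* Wr X) (x : X) : Set X := {z | ∃ h, (f h).perm x = z}

lemma mem_orb_self (f : R →* Wr X) (x : X) : x ∈ orb f x := ⟨1, by simp⟩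

lemma PData.extend {M : Subgroup R} (hf : ∀ x h, (f h).perm x = x ↔ h ∈ M)
    (hf' : ∀ y h, (f' h).perm y = y ↔ h ∈ M) {A : Set X} {e : X → Y} {b : X → ℤ}
    (hp : PData f f' A e b) (x : X) (hx : x ∉ A) (y : Y) (hy : y ∉ e '' A)
    (hty : ∀ n ∈ M, (f n).shift x = (f' n).shift y) (β : ℤ) :
    ∃ e' b', PData f f' (A ∪ orb f x) e' b' ∧ (∀ z ∈ A, e' z = e z ∧ b' z = b z) ∧
      e' x = y ∧ b' x = β := by
  classical
  have key : ∀ h h' : R, (f h).perm x = (f h').perm x →
      (f' h).perm y = (f' h').perm y ∧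
        (f' h).shift y - (f h).shift x = (f' h').shift y - (f h').shift x := by
    intro h h' hh
    obtain ⟨n, rfl⟩ : ∃ n, h' = h * n := ⟨h⁻¹ * h', by group⟩
    have hn : n ∈ M := by
      rw [← hf x n]
      rw [map_mul, Wr.mul_perm, Equiv.Perm.mul_apply] at hh
      exact ((f h).perm.injective hh).symm
    have h1 := (hf x n).2 hn
    have h2 := (hf' y n).2 hn
    have h3 := hty n hn
    refine ⟨?_, ?_⟩
    · rw [map_mul, Wr.mul_perm, Equiv.Perm.mul_apply, h2]
    · rw [map_mul, map_mul, Wr.mul_shift, Wr.mul_shift, h1, h2, h3]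
      ring
  have hinj : ∀ h h' : R, (f' h).perm y = (f' h').perm y → (f h).perm x = (f h').perm x := by
    intro h h' hh
    obtain ⟨n, rfl⟩ : ∃ n, h' = h * n := ⟨h⁻¹ * h', by group⟩
    have hn : n ∈ M := by
      rw [← hf' y n]
      rw [map_mul, Wr.mul_perm, Equiv.Perm.mul_apply] at hh
      exact ((f' h).perm.injective hh).symm
    have h1 := (hf x n).2 hn
    rw [map_mul, Wr.mul_perm, Equiv.Perm.mul_apply, h1]
  have hdisj : ∀ h, (f h).perm x ∉ A := by
    intro h hh
    apply hx
    have := hp.inv _ hh h⁻¹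
    rw [map_inv, Wr.inv_perm, Equiv.Perm.inv_def, Equiv.symm_apply_apply] at this
    exact this
  let e' : X → Y := fun z => if hz : ∃ h, (f h).perm x = z then (f' hz.choose).perm y else e z
  let b' : X → ℤ := fun z => if hz : ∃ h, (f h).perm x = z then
    β + ((f' hz.choose).shift y - (f hz.choose).shift x) else b z
  have he' : ∀ h, e' ((f h).perm x) = (f' h).perm y := by
    intro h
    have hz : ∃ k, (f k).perm x = (f h).perm x := ⟨h, rfl⟩
    simp only [e', dif_pos hz]
    exact (key _ _ hz.choose_spec).1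
  have hb' : ∀ h, b' ((f h).perm x) = β + ((f' h).shift y - (f h).shift x) := by
    intro h
    have hz : ∃ k, (f k).perm x = (f h).perm x := ⟨h, rfl⟩
    simp only [b', dif_pos hz]
    rw [(key _ _ hz.choose_spec).2]
  have hnot : ∀ z ∈ A, ¬ ∃ h, (f h).perm x = z := by
    rintro z hz ⟨h, rfl⟩
    exact hdisj h hz
  have heA : ∀ z ∈ A, e' z = e z := fun z hz => by simp only [e', dif_neg (hnot z hz)]
  have hbA : ∀ z ∈ A, b' z = b z := fun z hz => by simp only [b', dif_neg (hnot z hz)]
  refine ⟨e', b', ⟨?_, ?_, ?_, ?_⟩, fun z hz => ⟨heA z hz, hbA z hz⟩, ?_, ?_⟩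
  · rintro z (hz | ⟨h, rfl⟩) k
    · exact Or.inl (hp.inv z hz k)
    · exact Or.inr ⟨k * h, by simp⟩
  · rintro z (hz | ⟨h, rfl⟩) z' (hz' | ⟨h', rfl⟩) hzz
    · rw [heA z hz, heA z' hz'] at hzz
      exact hp.inj hz hz' hzz
    · exfalso
      rw [heA z hz, he'] at hzz
      apply hy
      refine ⟨(f h'⁻¹).perm z, hp.inv z hz _, ?_⟩
      rw [hp.equi z hz, hzz, map_inv, Wr.inv_perm, Equiv.Perm.inv_def, Equiv.symm_apply_apply]
    · exfalso
      rw [heA z' hz', he'] at hzz
      apply hy
      refine ⟨(f h⁻¹).perm z', hp.inv z' hz' _, ?_⟩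
      rw [hp.equi z' hz', ← hzz, map_inv, Wr.inv_perm, Equiv.Perm.inv_def, Equiv.symm_apply_apply]
    · rw [he', he'] at hzz
      exact hinj _ _ hzz
  · rintro z (hz | ⟨h, rfl⟩) k
    · rw [heA z hz, heA _ (hp.inv z hz k), hp.equi z hz]
    · have : (f k).perm ((f h).perm x) = (f (k * h)).perm x := by simp
      rw [this, he', he']
      simp
  · rintro z (hz | ⟨h, rfl⟩) k
    · rw [heA z hz, hbA z hz, hbA _ (hp.inv z hz k), hp.coc z hz]
    · have h1 : (f k).perm ((f h).perm x) = (f (k * h)).perm x := by simp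
      rw [h1, he', hb', hb']
      have h2 : (f' (k * h)).shift y = (f' k).shift ((f' h).perm y) + (f' h).shift y := by simp
      have h3 : (f (k * h)).shift x = (f k).shift ((f h).perm x) + (f h).shift x := by simp
      rw [h2, h3]
      ring
  · have := he' 1
    simpa using this
  · have := hb' 1
    simpa using this

lemma PData.complete {M : Subgroup R} [Finite X] [Finite Y]
    (hf : ∀ x h, (f h).perm x = x ↔ h ∈ M)
    (hf' : ∀ y h, (f' h).perm y = y ↔ h ∈ M)
    (τ : X ≃ Y) (hτ : ∀ x, ∀ n ∈ M, (f n).shift x = (f' n).shift (τ x)) (k : ℕ) :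
    ∀ (A : Set X) (e : X → Y) (b : X → ℤ), Set.ncard Aᶜ = k → PData f f' A e b →
      ∃ e' b', PData f f' Set.univ e' b' ∧ (∀ z ∈ A, e' z = e z ∧ b' z = b z) := by
  classical
  have := Fintype.ofFinite X
  have := Fintype.ofFinite Y
  induction k using Nat.strong_induction_on with
  | _ k ih =>
    intro A e b hk hp
    by_cases hA : A = Set.univ
    · subst hA
      exact ⟨e, b, hp, fun z _ => ⟨rfl, rfl⟩⟩
    · obtain ⟨x, hx⟩ : ∃ x, x ∉ A := by
        by_contra hcon
        push Not at hcon
        exact hA (Set.eq_univ_of_forall hcon)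
      -- find a matching `y`
      let U : Finset X := Finset.univ.filter (fun z : X => ∀ n ∈ M, (f n).shift z = (f n).shift x)
      let V : Finset Y := Finset.univ.filter (fun y : Y => ∀ n ∈ M, (f' n).shift y = (f n).shift x)
      have hUV : U.card = V.card := by
        refine Finset.card_bij (fun z _ => τ z) ?_ ?_ ?_
        · intro z hz
          simp only [U, V, Finset.mem_filter, Finset.mem_univ, true_and] at hz ⊢
          intro n hn
          rw [← hτ z n hn, hz n hn]
        · intro z _ z' _ h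
          exact τ.injective h
        · intro y hy
          refine ⟨τ.symm y, ?_, by simp⟩
          simp only [U, V, Finset.mem_filter, Finset.mem_univ, true_and] at hy ⊢
          intro n hn
          rw [hτ _ n hn, Equiv.apply_symm_apply, hy n hn]
      let UA : Finset X := U.filter (fun z => z ∈ A)
      have hlt : UA.card < U.card := by
        apply Finset.card_lt_card
        refine ⟨Finset.filter_subset _ _, fun hsub => ?_⟩
        have hxU : x ∈ U := by simp [U]
        have := hsub hxU
        simp only [UA, Finset.mem_filter] at this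
        exact hx this.2
      have hlt2 : (UA.image e).card < V.card := by
        calc (UA.image e).card ≤ UA.card := Finset.card_image_le
          _ < U.card := hlt
          _ = V.card := hUV
      obtain ⟨y, hyV, hyn⟩ := Finset.exists_mem_notMem_of_card_lt_card hlt2
      have hyV' : ∀ n ∈ M, (f' n).shift y = (f n).shift x := by
        simpa [V] using hyV
      have hyA : y ∉ e '' A := by
        rintro ⟨z, hz, rfl⟩
        apply hyn
        rw [Finset.mem_image]
        refine ⟨z, ?_, rfl⟩
        simp only [UA, U, Finset.mem_filter, Finset.mem_univ, true_and]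
        refine ⟨fun n hn => ?_, hz⟩
        have h1 := hp.coc z hz n
        rw [(hf z n).2 hn, hyV' n hn] at h1
        linarith
      obtain ⟨e1, b1, hp1, hext, -, -⟩ := hp.extend hf hf' x hx y hyA
        (fun n hn => (hyV' n hn).symm) 0
      have hcard : Set.ncard (A ∪ orb f x)ᶜ < k := by
        rw [← hk]
        refine Set.ncard_lt_ncard ?_ (Set.toFinite _)
        refine ⟨?_, fun hsub => ?_⟩
        · rw [Set.compl_subset_compl]
          exact Set.subset_union_left
        · have : x ∈ (A ∪ orb f x)ᶜ := hsub hx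
          exact this (Or.inr (mem_orb_self f x))
      obtain ⟨e2, b2, hp2, hext2⟩ := ih _ hcard _ _ _ rfl hp1
      refine ⟨e2, b2, hp2, fun z hz => ?_⟩
      obtain ⟨h1, h2⟩ := hext z hz
      obtain ⟨h3, h4⟩ := hext2 z (Or.inl hz)
      exact ⟨h3.trans h1, h4.trans h2⟩

/-- The gluing lemma, with prescribed values on finitely many marked orbits. -/
theorem glue {M : Subgroup R} [Finite X] [Finite Y] {ι : Type*} [Finite ι]
    (hf : ∀ x h, (f h).perm x = x ↔ h ∈ M)
    (hf' : ∀ y h, (f' h).perm y = y ↔ h ∈ M)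
    (τ : X ≃ Y) (hτ : ∀ x, ∀ n ∈ M, (f n).shift x = (f' n).shift (τ x))
    (x : ι → X) (y : ι → Y) (β : ι → ℤ)
    (hx : ∀ i j h, (f h).perm (x i) = x j → i = j)
    (hy : ∀ i j h, (f' h).perm (y i) = y j → i = j)
    (hxy : ∀ i, ∀ n ∈ M, (f n).shift (x i) = (f' n).shift (y i)) :
    ∃ (e : X ≃ Y) (b : X → ℤ), (∀ h, Wr.transport e b (f' h) = f h) ∧
      ∀ i, e (x i) = y i ∧ b (x i) = β i := by
  classical
  have := Fintype.ofFinite X
  have := Fintype.ofFinite Y
  have := Fintype.ofFinite ι
  rcases isEmpty_or_nonempty Y with hY | hY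
  · have hX : IsEmpty X := ⟨fun x => hY.false (τ x)⟩
    refine ⟨τ, fun _ => 0, fun h => ?_, fun i => (hX.false (x i)).elim⟩
    ext z <;> exact (hX.false z).elim
  have marks : ∀ s : Finset ι, ∃ (e : X → Y) (b : X → ℤ),
      PData f f' {z | ∃ i ∈ s, z ∈ orb f (x i)} e b ∧ ∀ i ∈ s, e (x i) = y i ∧ b (x i) = β i := by
    intro s
    induction s using Finset.induction_on with
    | empty =>
      refine ⟨fun _ => Classical.choice hY, fun _ => 0, ⟨?_, ?_, ?_, ?_⟩, by simp⟩
      all_goals simp
    | insert j s hj ih =>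
      obtain ⟨e, b, hp, hm⟩ := ih
      have hxA : x j ∉ {z | ∃ i ∈ s, z ∈ orb f (x i)} := by
        rintro ⟨i, hi, h, hh⟩
        have := hx i j h hh
        subst this
        exact hj hi
      have hyA : y j ∉ e '' {z | ∃ i ∈ s, z ∈ orb f (x i)} := by
        rintro ⟨z, ⟨i, hi, h, rfl⟩, hh⟩
        rw [hp.equi (x i) ⟨i, hi, mem_orb_self f _⟩, (hm i hi).1] at hh
        have := hy i j h hh
        subst this
        exact hj hi
      obtain ⟨e', b', hp', hext, h1, h2⟩ := hp.extend hf hf' (x j) hxA (y j) hyA (hxy j) (β j)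
      have hset : ({z | ∃ i ∈ s, z ∈ orb f (x i)} ∪ orb f (x j) : Set X) =
          {z | ∃ i ∈ insert j s, z ∈ orb f (x i)} := by
        ext z
        simp only [Set.mem_union, Set.mem_ofPred_eq, Finset.mem_insert, exists_eq_or_imp]
        exact or_comm
      rw [hset] at hp'
      refine ⟨e', b', hp', ?_⟩
      intro i hi
      rw [Finset.mem_insert] at hi
      rcases hi with rfl | hi
      · exact ⟨h1, h2⟩
      · obtain ⟨h3, h4⟩ := hext (x i) ⟨i, hi, mem_orb_self f _⟩
        exact ⟨h3.trans (hm i hi).1, h4.trans (hm i hi).2⟩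
  obtain ⟨e, b, hp, hm⟩ := marks Finset.univ
  obtain ⟨e', b', hp', hext⟩ := PData.complete hf hf' τ hτ _ _ _ _ rfl hp
  have hinj : Function.Injective e' := fun z z' h => hp'.inj (Set.mem_univ z) (Set.mem_univ z') h
  have hbij : Function.Bijective e' := by
    rw [Fintype.bijective_iff_injective_and_card]
    exact ⟨hinj, Fintype.card_congr τ⟩
  refine ⟨Equiv.ofBijective e' hbij, b', ?_, ?_⟩
  · intro h
    ext z
    · rw [Wr.transport_perm, Equiv.symm_apply_eq, Equiv.ofBijective_apply, Equiv.ofBijective_apply]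
      exact (hp'.equi z (Set.mem_univ z) h).symm
    · have h1 : (Equiv.ofBijective e' hbij).symm ((f' h).perm (e' z)) = (f h).perm z := by
        rw [Equiv.symm_apply_eq, Equiv.ofBijective_apply]
        exact (hp'.equi z (Set.mem_univ z) h).symm
      rw [Wr.transport_shift, Equiv.ofBijective_apply, h1, hp'.coc z (Set.mem_univ z) h]
      ring
  · intro i
    obtain ⟨h3, h4⟩ := hext (x i) ⟨i, Finset.mem_univ i, mem_orb_self f _⟩
    obtain ⟨h5, h6⟩ := hm i (Finset.mem_univ i)
    exact ⟨h3.trans h5, h4.trans h6⟩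

end Pool.Agent.Helper35.VRC
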