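import Pool.Agent.Helper35.VRC.Ell

/-!
Property (VRC) for amalgams over virtually cyclic subgroups.
-/

namespace Pool.Agent.Helper35.VRC

universe u v w t

variable {P : Type u} {Q : Type v} {R : Type w} {G : Type t} [Group P] [Group Q]
    [Group R] [Group G] {iP : R →* P} {iQ : R →* Q} {jP : P →* G} {jQ : Q →* G}

/-- the value of a list of pairs -/
def lval (jP : P →* G) (jQ : Q →* G) (L : List (P × Q)) : G :=
  (L.map fun a => jP a.1 * jQ a.2).prod

lemma lval_append (jP : P →* G) (jQ : Q →* G) (L L' : List (P × Q)) :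
    lval jP jQ (L ++ L') = lval jP jQ L * lval jP jQ L' := by
  simp [lval]

lemma lval_cons (jP : P →* G) (jQ : Q →* G) (a : P × Q) (L' : List (P × Q)) :
    lval jP jQ (a :: L') = jP a.1 * jQ a.2 * lval jP jQ L' := by
  simp [lval]

lemma lval_nil (jP : P →* G) (jQ : Q →* G) : lval jP jQ ([] : List (P × Q)) = 1 := by
  simp [lval]

lemma IsAmalg.exists_lval (h : IsAmalg iP iQ jP jQ) (g : G) : ∃ L, g = lval jP jQ L := by
  have hinv : ∀ L : List (P × Q), ∃ L', (lval jP jQ L)⁻¹ = lval jP jQ L' := by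
    intro L
    induction L with
    | nil => exact ⟨[], by simp [lval]⟩
    | cons a L ih =>
      obtain ⟨L', hL'⟩ := ih
      refine ⟨L' ++ [(1, a.2⁻¹), (a.1⁻¹, 1)], ?_⟩
      rw [lval_cons, lval_append, mul_inv_rev, hL']
      simp [lval, mul_inv_rev]
  let K : Subgroup G :=
    { carrier := {g | ∃ L, g = lval jP jQ L}
      one_mem' := ⟨[], by simp [lval]⟩
      mul_mem' := by
        rintro _ _ ⟨L, rfl⟩ ⟨L', rfl⟩
        exact ⟨L ++ L', (lval_append _ _ _ _).symm⟩
      inv_mem' := by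
        rintro _ ⟨L, rfl⟩
        exact hinv L }
  exact h.gen K (fun p => ⟨[(p, 1)], by simp [lval]⟩) (fun q => ⟨[(1, q)], by simp [lval]⟩) g

/-- Every element is conjugate to an element of `P`, of `Q` or to an alternating product. -/
lemma IsAmalg.exists_nice (h : IsAmalg iP iQ jP jQ) (g : G) :
    ∃ u : G, (∃ p, u * g * u⁻¹ = jP p) ∨ (∃ q, u * g * u⁻¹ = jQ q) ∨
      ∃ L : List (P × Q), L ≠ [] ∧ (∀ a ∈ L, a.1 ∉ iP.range ∧ a.2 ∉ iQ.range) ∧
        u * g * u⁻¹ = lval jP jQ L := by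
  obtain ⟨L, rfl⟩ := h.exists_lval g
  obtain ⟨n, hn⟩ : ∃ n, L.length = n := ⟨_, rfl⟩
  induction n using Nat.strong_induction_on generalizing L with
  | _ n ih =>
  -- a conjugate of a shorter list suffices
  have red : ∀ (v : G) (L' : List (P × Q)), L'.length < n →
      v * lval jP jQ L * v⁻¹ = lval jP jQ L' →
      ∃ u : G, (∃ p, u * lval jP jQ L * u⁻¹ = jP p) ∨ (∃ q, u * lval jP jQ L * u⁻¹ = jQ q) ∨
      ∃ L0 : List (P × Q), L0 ≠ [] ∧ (∀ a ∈ L0, a.1 ∉ iP.range ∧ a.2 ∉ iQ.range) ∧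
        u * lval jP jQ L * u⁻¹ = lval jP jQ L0 := by
    intro v L' hL' hv
    obtain ⟨u, hu⟩ := ih _ hL' L' rfl
    refine ⟨u * v, ?_⟩
    have h1 : u * v * lval jP jQ L * (u * v)⁻¹ = u * lval jP jQ L' * u⁻¹ := by
      rw [← hv]; group
    rw [h1]
    exact hu
  by_cases hL0 : L = []
  · subst hL0
    exact ⟨1, Or.inl ⟨1, by simp [lval]⟩⟩
  by_cases hgood : ∀ a ∈ L, a.1 ∉ iP.range ∧ a.2 ∉ iQ.range
  · exact ⟨1, Or.inr (Or.inr ⟨L, hL0, hgood, by simp⟩)⟩
  · push Not at hgood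
    obtain ⟨a, haL, ha⟩ := hgood
    obtain ⟨L1, L2, rfl⟩ := List.append_of_mem haL
    have hlen : (L1 ++ a :: L2).length = (L2 ++ L1).length + 1 := by
      simp only [List.length_append, List.length_cons]; omega
    have hrot1 : (lval jP jQ L1)⁻¹ * lval jP jQ (L1 ++ a :: L2) * (lval jP jQ L1)⁻¹⁻¹ =
        lval jP jQ (a :: (L2 ++ L1)) := by
      rw [lval_append, lval_cons, lval_cons, lval_append]
      group
    have hrot2 : (lval jP jQ (L1 ++ [a]))⁻¹ * lval jP jQ (L1 ++ a :: L2) *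
        (lval jP jQ (L1 ++ [a]))⁻¹⁻¹ = lval jP jQ ((L2 ++ L1) ++ [a]) := by
      simp only [lval_append, lval_cons, lval_nil]
      group
    by_cases ha2 : a.2 ∈ iQ.range
    · obtain ⟨r, hr⟩ := ha2
      rcases hL' : L2 ++ L1 with _ | ⟨b, L''⟩
      · refine ⟨(lval jP jQ L1)⁻¹, Or.inl ⟨a.1 * iP r, ?_⟩⟩
        rw [hrot1, hL', lval_cons, lval_nil, ← hr, map_mul, h.comm, mul_one]
      · refine red _ ((a.1 * iP r * b.1, b.2) :: L'') ?_ (hrot1.trans ?_)
        · rw [← hn, hlen, hL']; simp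
        · rw [hL', lval_cons, lval_cons, lval_cons, ← hr]
          simp only [map_mul, h.comm]
          group
    · obtain ⟨r, hr⟩ : a.1 ∈ iP.range := by
        by_contra hcon
        exact ha2 (ha hcon)
      rcases List.eq_nil_or_concat (L2 ++ L1) with hL' | ⟨L'', b, hL'⟩
      · refine ⟨(lval jP jQ L1)⁻¹, Or.inr (Or.inl ⟨iQ r * a.2, ?_⟩)⟩
        rw [hrot1, hL', lval_cons, lval_nil, ← hr, map_mul, h.comm, mul_one]
      · refine red _ (L'' ++ [(b.1, b.2 * iQ r * a.2)]) ?_ (hrot2.trans ?_)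
        · rw [← hn, hlen, hL']; simp
        · rw [hL', ]
          simp only [lval_append, lval_cons, lval_nil, map_mul, ← hr, h.comm, List.concat_eq_append]
          group

/-- A virtually cyclic group has a generator `r` of a finite index cyclic subgroup which is trivial or
of infinite order. -/
lemma IsVirtuallyCyclic.exists_gen (hR : IsVirtuallyCyclic R) :
    ∃ r : R, (Subgroup.zpowers r).FiniteIndex ∧ (r = 1 ∨ ¬ IsOfFinOrder r) := by
  obtain ⟨C, hC, hCf⟩ := hR
  obtain ⟨⟨r, hrC⟩, hr⟩ := hC.exists_generator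
  have hCr : C ≤ Subgroup.zpowers r := by
    intro x hx
    obtain ⟨j, hj⟩ := hr ⟨x, hx⟩
    exact ⟨j, by simpa using congrArg Subtype.val hj⟩
  have hrf : (Subgroup.zpowers r).FiniteIndex := Subgroup.finiteIndex_of_le hCr
  by_cases hfin : IsOfFinOrder r
  · refine ⟨1, ?_, Or.inl rfl⟩
    have h1 : Finite (Subgroup.zpowers r) := by
      rw [← Nat.card_pos_iff.trans (and_iff_right ⟨1⟩), Nat.card_zpowers]
      exact hfin.orderOf_pos
    have h2 : Finite R := (Subgroup.finite_iff_finite_and_finiteIndex (Subgroup.zpowers r)).2 ⟨h1, hrf⟩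
    infer_instance
  · exact ⟨r, hrf, Or.inr hfin⟩

/-- Matched finite index normal subgroups. -/
lemma exists_matched (hP : HasVRC P) (hQ : HasVRC Q) (hiP : Function.Injective iP)
    (hiQ : Function.Injective iQ) (r : R) (hr : (Subgroup.zpowers r).FiniteIndex)
    (hr0 : r = 1 ∨ ¬ IsOfFinOrder r)
    (LP : Subgroup P) (hLPn : LP.Normal) (hLPf : LP.FiniteIndex)
    (LQ : Subgroup Q) (hLQn : LQ.Normal) (hLQf : LQ.FiniteIndex) :
    ∃ (N : Subgroup P) (N' : Subgroup Q) (k : ℕ), 0 < k ∧ N.Normal ∧ N.FiniteIndex ∧ N ≤ LP ∧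
      N'.Normal ∧ N'.FiniteIndex ∧ N' ≤ LQ ∧
      N.comap iP = Subgroup.zpowers (r ^ k) ∧ N'.comap iQ = Subgroup.zpowers (r ^ k) := by
  rcases hr0 with rfl | hr0
  · obtain ⟨N1, h1, h2, h3⟩ := hP.exists_inter_le iP hiP 1 hr
    obtain ⟨N2, h4, h5, h6⟩ := hQ.exists_inter_le iQ hiQ 1 hr
    have h7 : Subgroup.zpowers ((1 : R) ^ 1) = ⊥ := by simp
    refine ⟨LP ⊓ N1, LQ ⊓ N2, 1, one_pos, inferInstance, inferInstance, inf_le_left, inferInstance,
      inferInstance, inf_le_left, ?_, ?_⟩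
    · rw [h7, eq_bot_iff]
      intro x hx
      have := h3 hx.2
      rwa [Subgroup.zpowers_one_eq_bot] at this
    · rw [h7, eq_bot_iff]
      intro x hx
      have := h6 hx.2
      rwa [Subgroup.zpowers_one_eq_bot] at this
  · obtain ⟨n, hn, hN⟩ := hP.potency iP hiP r hr hr0 LP hLPn hLPf
    obtain ⟨n', hn', hN'⟩ := hQ.potency iQ hiQ r hr hr0 LQ hLQn hLQf
    obtain ⟨N, h1, h2, h3, h4⟩ := hN n' hn'
    obtain ⟨N', h1', h2', h3', h4'⟩ := hN' n hn
    refine ⟨N, N', n * n', Nat.mul_pos hn hn', h1, h2, h3, h1', h2', h3', h4, ?_⟩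
    rw [h4', mul_comm n' n]

/-- The elements of `P` generate virtual retracts of the amalgam. -/
theorem IsAmalg.vr_of_left (h : IsAmalg iP iQ jP jQ) (hP : HasVRC P) (hQ : HasVRC Q)
    (hiP : Function.Injective iP) (hiQ : Function.Injective iQ) (hR : IsVirtuallyCyclic R)
    (p : P) : IsVirtualRetract (Subgroup.zpowers (jP p)) := by
  classical
  obtain ⟨r, hr, hr0⟩ := hR.exists_gen
  by_cases hp : IsOfFinOrder p
  · -- finite order
    have hsep : ∀ j : Fin (orderOf p), ∃ N : Subgroup P, N.Normal ∧ N.FiniteIndex ∧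
        (p ^ (j : ℕ) ≠ 1 → p ^ (j : ℕ) ∉ N) := by
      intro j
      by_cases hj : p ^ (j : ℕ) = 1
      · exact ⟨⊤, inferInstance, inferInstance, fun hc => absurd hj hc⟩
      · obtain ⟨N, h1, h2, h3⟩ := hP.exists_normal_notMem _ hj
        exact ⟨N, h1, h2, fun _ => h3⟩
    choose NN hNNn hNNf hNN using hsep
    obtain ⟨N, N', k, hk, hN, hNf, hNL, hN', hNf', -, hM, hM'⟩ := exists_matched hP hQ hiP hiQ r hr hr0
      (⨅ j, NN j) (Subgroup.normal_iInf_normal hNNn) (Subgroup.finiteIndex_iInf hNNf) ⊤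
      inferInstance inferInstance
    have hNp : ∀ j : ℤ, p ^ j ∈ N → p ^ j = 1 := by
      intro j hj
      by_contra hne
      have hord : 0 < orderOf p := hp.orderOf_pos
      have h1 : p ^ j = p ^ ((j % orderOf p).toNat) := by
        rw [← zpow_natCast, Int.toNat_of_nonneg (Int.emod_nonneg _ (by exact_mod_cast hord.ne')),
          zpow_mod_orderOf]
      have h2 : (j % orderOf p).toNat < orderOf p := by
        have h3 := Int.emod_lt_of_pos j (b := orderOf p) (by exact_mod_cast hord)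
        have h4 := Int.emod_nonneg j (b := orderOf p) (by exact_mod_cast hord.ne')
        omega
      have h5 := (Subgroup.mem_iInf.1 (hNL hj)) ⟨(j % orderOf p).toNat, h2⟩
      rw [h1] at h5 hne
      exact hNN ⟨(j % orderOf p).toNat, h2⟩ hne h5
    have := Fintype.ofFinite (P ⧸ N)
    have := Fintype.ofFinite (Q ⧸ N')
    obtain ⟨Θ, hΘ⟩ := h.elliptic N N' (r ^ k) hM hM' (fun _ => 0) (isChar_zero N) (fun _ => 0)
      (isChar_zero N') (fun _ => 0) (by simp)
    refine isVirtualRetract_of_finite (Wr.permHom.comp Θ) _ ?_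
    rintro _ ⟨j, rfl⟩ hj
    have h1 : (fun x => jP p ^ x) j = jP (p ^ j) := by simp
    rw [h1] at hj ⊢
    rw [MonoidHom.comp_apply, Wr.permHom_apply, hΘ] at hj
    have h2 := congrArg (fun σ : Equiv.Perm _ => σ ((fun _ => false, 1), 1)) hj
    simp only [family_perm, ind_perm, Equiv.Perm.one_apply, Prod.mk.injEq, mul_one, true_and] at h2
    rw [QuotientGroup.eq_one_iff] at h2
    rw [hNp j h2, map_one]
  · -- infinite order
    obtain ⟨LP, χ, hLPn, hLPf, hχ, hχp⟩ := hP.exists_char p hp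
    obtain ⟨LQ, χ', hLQn, hLQf, hχ', hχr⟩ : ∃ (LQ : Subgroup Q) (χ' : Q → ℤ), LQ.Normal ∧
        LQ.FiniteIndex ∧ IsChar LQ χ' ∧ (r = 1 ∨ ∀ j : ℤ, χ' (iQ r ^ j) = j) := by
      rcases hr0 with hr1 | hr0
      · exact ⟨⊤, fun _ => 0, inferInstance, inferInstance, isChar_zero _, Or.inl hr1⟩
      · have hir0 : ¬ IsOfFinOrder (iQ r) := by
          rw [hiQ.isOfFinOrder_iff]; exact hr0
        obtain ⟨LQ, χ', h1, h2, h3, h4⟩ := hQ.exists_char _ hir0
        exact ⟨LQ, χ', h1, h2, h3, Or.inr h4⟩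
    obtain ⟨N, N', k, hk, hN, hNf, hNL, hN', hNf', hNL', hM, hM'⟩ := exists_matched hP hQ hiP hiQ r hr
      hr0 LP hLPn hLPf LQ hLQn hLQf
    have hχN := hχ.mono hNL
    have hχN' := hχ'.mono hNL'
    have hρ' : iQ (r ^ k) ∈ N' := by
      have : r ^ k ∈ N'.comap iQ := by rw [hM']; exact Subgroup.mem_zpowers _
      exact this
    have := Fintype.ofFinite (P ⧸ N)
    have := Fintype.ofFinite (Q ⧸ N')
    -- the weight
    obtain ⟨wt, hwt, hwt1⟩ : ∃ wt : Q ⧸ N' → ℤ,
        (∀ (y : P ⧸ N) (y' : Q ⧸ N'), χ (y.out⁻¹ * iP (r ^ k) * y.out) * wt y' =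
          χ (y.out⁻¹ * iP (r ^ k) * y.out) * χ' (y'.out⁻¹ * iQ (r ^ k) * y'.out)) ∧
        wt 1 ≠ 0 := by
      rcases hχr with rfl | hχr
      · refine ⟨fun _ => 1, ?_, one_ne_zero⟩
        intro y y'
        simp [hχN.map_one]
      · refine ⟨fun y' => χ' (y'.out⁻¹ * iQ (r ^ k) * y'.out), fun _ _ => rfl, ?_⟩
        have h1 := hχN'.coset hN' hρ' 1 1 rfl
        beta_reduce
        rw [← h1, inv_one, one_mul, mul_one, map_pow, ← zpow_natCast, hχr]
        exact_mod_cast hk.ne'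
    obtain ⟨Θ, hΘ⟩ := h.elliptic N N' (r ^ k) hM hM' χ hχN χ' hχN' wt hwt
    obtain ⟨n, hn0, -, hn⟩ := Subgroup.exists_pow_mem_of_index_ne_zero hNf.index_ne_zero p
    have hmk : (QuotientGroup.mk (p ^ n) : P ⧸ N) = 1 := (QuotientGroup.eq_one_iff _).2 hn
    refine isVirtualRetract_of_shift Θ (jP p)
      (((fun yy => decide (yy = (1, 1))), 1), 1) n ?_ ?_
    · rw [← map_pow, hΘ, family_perm, ind_perm, hmk, mul_one]
    · rw [← map_pow, hΘ, family_shift, ind_shift_mem _ _ _ _ hn]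
      unfold wsum
      rw [Finset.sum_eq_single (1, 1)]
      · have h2 : (1 : P ⧸ N).out⁻¹ * ((1 : P ⧸ N).out⁻¹ * p ^ n * (1 : P ⧸ N).out) *
            (1 : P ⧸ N).out = ((1 : P ⧸ N).out * (1 : P ⧸ N).out)⁻¹ * p ^ n *
            ((1 : P ⧸ N).out * (1 : P ⧸ N).out) := by group
        have h3 : (QuotientGroup.mk ((1 : P ⧸ N).out * (1 : P ⧸ N).out) : P ⧸ N) = 1 := by
          rw [QuotientGroup.mk_mul, QuotientGroup.out_eq', mul_one]
        have h4 := hχN.coset hN hn _ 1 h3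
        have h5 := hχN.coset hN hn 1 1 rfl
        rw [h2, h4, ← h5, inv_one, one_mul, mul_one]
        have h6 := hχp n
        rw [zpow_natCast] at h6
        rw [h6]
        simp only [decide_true, if_true]
        exact mul_ne_zero hwt1 (by exact_mod_cast hn0.ne')
      · intro yy _ hyy
        simp [hyy]
      · intro hcon
        exact absurd (Finset.mem_univ _) hcon

/-- **Main theorem**, abstract form. -/
theorem IsAmalg.hasVRC (h : IsAmalg iP iQ jP jQ) (hP : HasVRC P) (hQ : HasVRC Q)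
    (hiP : Function.Injective iP) (hiQ : Function.Injective iQ) (hR : IsVirtuallyCyclic R) :
    HasVRC G := by
  classical
  intro g
  obtain ⟨u, hu⟩ := h.exists_nice g
  have hconj : IsVirtualRetract (Subgroup.zpowers (u * g * u⁻¹)) →
      IsVirtualRetract (Subgroup.zpowers g) := by
    intro h1
    have h2 := isVirtualRetract_zpowers_conj (u := u⁻¹) h1
    have h3 : u⁻¹ * (u * g * u⁻¹) * u⁻¹⁻¹ = g := by group
    rwa [h3] at h2
  apply hconj
  rcases hu with ⟨p, hp⟩ | ⟨q, hq⟩ | ⟨L, hL0, hL, hLv⟩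
  · rw [hp]
    exact h.vr_of_left hP hQ hiP hiQ hR p
  · rw [hq]
    exact h.symm.vr_of_left hQ hP hiQ hiP hR q
  · rw [hLv]
    obtain ⟨r, hr, hr0⟩ := hR.exists_gen
    have hsP : ∀ a : {a // a ∈ L}, ∃ N : Subgroup P, N.Normal ∧ N.FiniteIndex ∧
        ∀ x : R, iP x * a.1.1 ∉ N := fun a => hP.separable iP r hr a.1.1 (hL a.1 a.2).1
    have hsQ : ∀ a : {a // a ∈ L}, ∃ N : Subgroup Q, N.Normal ∧ N.FiniteIndex ∧
        ∀ x : R, iQ x * a.1.2 ∉ N := fun a => hQ.separable iQ r hr a.1.2 (hL a.1 a.2).2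
    choose NP hNPn hNPf hNP using hsP
    choose NQ hNQn hNQf hNQ using hsQ
    have hfin : Finite {a // a ∈ L} := by
      have : Fintype {a // a ∈ L} := Fintype.ofFinset (L.toFinset) (by intro x; rw [List.mem_toFinset]; rfl) 
      infer_instance
    obtain ⟨N, N', k, hk, hN, hNf, hNL, hN', hNf', hNL', hM, hM'⟩ := exists_matched hP hQ hiP hiQ r hr
      hr0 (⨅ a, NP a) (Subgroup.normal_iInf_normal hNPn) (Subgroup.finiteIndex_iInf hNPf)
      (⨅ a, NQ a) (Subgroup.normal_iInf_normal hNQn) (Subgroup.finiteIndex_iInf hNQf)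
    obtain ⟨X, hX, Θ, x, hx, hs⟩ := h.hyperbolic N N' (hM.trans hM'.symm) L hL0
      (fun a ha y hy => hNP ⟨a, ha⟩ y ((Subgroup.mem_iInf.1 (hNL hy)) _))
      (fun a ha y hy => hNQ ⟨a, ha⟩ y ((Subgroup.mem_iInf.1 (hNL' hy)) _))
    refine isVirtualRetract_of_shift Θ _ x 1 ?_ ?_
    · rw [pow_one]; exact hx
    · rw [pow_one]
      change (Θ (L.map fun a => jP a.1 * jQ a.2).prod).shift x ≠ 0
      rw [hs]; exact one_ne_zero

section Concrete

variable (R : Subgroup P) (S : Subgroup Q) (e : R ≃* S)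

/-- the canonical map of `P` to the amalgam -/
def Amalgam.inl : P →* Amalgam R S e :=
  (QuotientGroup.mk' (Subgroup.normalClosure (amalgamRel R S e))).comp Monoid.Coprod.inl

/-- the canonical map of `Q` to the amalgam -/
def Amalgam.inr : Q →* Amalgam R S e :=
  (QuotientGroup.mk' (Subgroup.normalClosure (amalgamRel R S e))).comp Monoid.Coprod.inr

lemma amalgam_isAmalg : IsAmalg R.subtype (S.subtype.comp (e : R →* S))
    (Amalgam.inl R S e) (Amalgam.inr R S e) where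
  comm r := by
    change (QuotientGroup.mk (Monoid.Coprod.inl (r : P)) : Monoid.Coprod P Q ⧸
      Subgroup.normalClosure (amalgamRel R S e)) = QuotientGroup.mk (Monoid.Coprod.inr ((e r : S) : Q))
    rw [← mul_inv_eq_one, ← QuotientGroup.mk_inv, ← QuotientGroup.mk_mul, QuotientGroup.eq_one_iff]
    exact Subgroup.subset_normalClosure ⟨r, rfl⟩
  gen K h1 h2 g := by
    obtain ⟨x, rfl⟩ := QuotientGroup.mk_surjective g
    induction x using Monoid.Coprod.induction_on with
    | inl p => exact h1 p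
    | inr q => exact h2 q
    | mul a b ha hb => exact K.mul_mem ha hb
  lift H _ f f' hff := by
    refine ⟨QuotientGroup.lift _ (Monoid.Coprod.lift f f') ?_, fun p => ?_, fun q => ?_⟩
    · apply Subgroup.normalClosure_le_normal
      rintro _ ⟨r, rfl⟩
      have := hff r
      simp only [Subgroup.coe_subtype, MonoidHom.coe_comp, MonoidHom.coe_coe, Function.comp_apply] at this
      change Monoid.Coprod.lift f f' _ = 1
      rw [map_mul, map_inv, Monoid.Coprod.lift_apply_inl, Monoid.Coprod.lift_apply_inr, this,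
        mul_inv_cancel]
    · change Monoid.Coprod.lift f f' (Monoid.Coprod.inl p) = f p
      exact Monoid.Coprod.lift_apply_inl _ _ _
    · change Monoid.Coprod.lift f f' (Monoid.Coprod.inr q) = f' q
      exact Monoid.Coprod.lift_apply_inr _ _ _

end Concrete

end Pool.Agent.Helper35.VRC
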