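import Pool.Agent.Helper35.VRC.Glue

/-!
Consequences of (VRC): residual finiteness, separability, characters, potency.
-/

namespace Pool.Agent.Helper35.VRC

universe u v w

/-- `χ` is additive on the subgroup `N`. -/
structure IsChar {P : Type u} [Group P] (N : Subgroup P) (χ : P → ℤ) : Prop where
  map_mul : ∀ a ∈ N, ∀ b ∈ N, χ (a * b) = χ a + χ b

namespace IsChar

variable {P : Type u} [Group P] {N : Subgroup P} {χ : P → ℤ}

lemma mono (h : IsChar N χ) {N' : Subgroup P} (hN : N' ≤ N) : IsChar N' χ :=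
  ⟨fun a ha b hb => h.map_mul a (hN ha) b (hN hb)⟩

lemma map_one (h : IsChar N χ) : χ 1 = 0 := by
  have := h.map_mul 1 N.one_mem 1 N.one_mem
  rw [mul_one] at this
  linarith

lemma map_inv (h : IsChar N χ) {a : P} (ha : a ∈ N) : χ a⁻¹ = - χ a := by
  have := h.map_mul a ha a⁻¹ (N.inv_mem ha)
  rw [mul_inv_cancel, h.map_one] at this
  linarith

lemma map_zpow (h : IsChar N χ) {a : P} (ha : a ∈ N) (j : ℤ) : χ (a ^ j) = j * χ a := by
  induction j using Int.induction_on with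
  | zero => simp [h.map_one]
  | succ k ih =>
    rw [zpow_add_one, h.map_mul _ (N.zpow_mem ha _) _ ha, ih]
    ring
  | pred k ih =>
    rw [zpow_sub_one, h.map_mul _ (N.zpow_mem ha _) _ (N.inv_mem ha), ih, h.map_inv ha]
    ring

lemma map_pow (h : IsChar N χ) {a : P} (ha : a ∈ N) (j : ℕ) : χ (a ^ j) = j * χ a := by
  have := h.map_zpow ha (j : ℤ)
  rwa [zpow_natCast] at this

lemma map_conj (h : IsChar N χ) {a m : P} (ha : a ∈ N) (hm : m ∈ N) : χ (m⁻¹ * a * m) = χ a := by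
  rw [h.map_mul _ (N.mul_mem (N.inv_mem hm) ha) _ hm, h.map_mul _ (N.inv_mem hm) _ ha,
    h.map_inv hm]
  ring

end IsChar

lemma finiteIndex_zpowers_ofAdd {c : ℤ} (hc0 : c ≠ 0) :
    (Subgroup.zpowers (Multiplicative.ofAdd c)).FiniteIndex := by
  have h1 : Finite (ℤ ⧸ AddSubgroup.zmultiples c) := by
    have : NeZero c.natAbs := ⟨by simpa using hc0⟩
    exact Finite.of_equiv _ (Int.quotientZMultiplesEquivZMod c).symm.toEquiv
  refine ⟨?_⟩
  have h2 : (AddSubgroup.zmultiples c).index ≠ 0 := AddSubgroup.index_ne_zero_of_finite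
  intro h3
  apply h2
  rw [← h3]
  rfl

lemma finiteIndex_map_subtype {G : Type u} [Group G] (K : Subgroup G) (hK : K.FiniteIndex)
    (L : Subgroup K) (hL : L.FiniteIndex) : (L.map K.subtype).FiniteIndex :=
  ⟨by
    rw [Subgroup.index_map_subtype]
    exact mul_ne_zero hL.index_ne_zero hK.index_ne_zero⟩

variable {P : Type u} [Group P]

/-- The exponent homomorphism on an infinite cyclic subgroup. -/
lemma exists_expo (g : P) (hg : ¬ IsOfFinOrder g) :
    ∃ φ : Subgroup.zpowers g →* Multiplicative ℤ, ∀ (x : Subgroup.zpowers g) (j : ℤ),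
      (x : P) = g ^ j → φ x = Multiplicative.ofAdd j := by
  have hinj : Function.Injective (fun j : ℤ => g ^ j) := injective_zpow_iff_not_isOfFinOrder.2 hg
  have hspec : ∀ x : Subgroup.zpowers g, g ^ (x.2.choose) = (x : P) := fun x => x.2.choose_spec
  refine ⟨⟨⟨fun x => Multiplicative.ofAdd (x.2.choose), ?_⟩, ?_⟩, ?_⟩
  · have : (1 : Subgroup.zpowers g).2.choose = 0 := by
      apply hinj
      change g ^ _ = g ^ (0 : ℤ)
      rw [hspec]
      simp
    rw [this]; rfl
  · intro x y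
    change Multiplicative.ofAdd ((x * y).2.choose) = Multiplicative.ofAdd (x.2.choose) *
      Multiplicative.ofAdd (y.2.choose)
    rw [← ofAdd_add]
    congr 1
    apply hinj
    change g ^ _ = g ^ _
    rw [hspec, zpow_add, hspec, hspec]
    rfl
  · intro x j hxj
    change Multiplicative.ofAdd (x.2.choose) = _
    congr 1
    apply hinj
    change g ^ _ = g ^ _
    rw [hspec, hxj]

/-- characters of finite index subgroups detecting elements of infinite order -/
lemma HasVRC.exists_char (h : HasVRC P) (g : P) (hg : ¬ IsOfFinOrder g) :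
    ∃ (N : Subgroup P) (χ : P → ℤ), N.Normal ∧ N.FiniteIndex ∧ IsChar N χ ∧
      ∀ j : ℤ, χ (g ^ j) = j := by
  classical
  obtain ⟨K, hK, hle, ρ, hρ⟩ := h g
  obtain ⟨φ, hφ⟩ := exists_expo g hg
  let χ : P → ℤ := fun k => if hk : k ∈ K then (φ (ρ ⟨k, hk⟩)).toAdd else 0
  have hχ : IsChar K χ := by
    refine ⟨fun a ha b hb => ?_⟩
    simp only [χ, dif_pos ha, dif_pos hb, dif_pos (K.mul_mem ha hb)]
    rw [← toAdd_mul, ← map_mul, ← map_mul]
    rfl
  refine ⟨K.normalCore, χ, inferInstance, inferInstance, hχ.mono K.normalCore_le, ?_⟩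
  intro j
  have hj : g ^ j ∈ K := hle ⟨j, rfl⟩
  simp only [χ, dif_pos hj]
  have h1 : ρ ⟨g ^ j, hj⟩ = ⟨g ^ j, ⟨j, rfl⟩⟩ := hρ ⟨g ^ j, ⟨j, rfl⟩⟩
  rw [h1, hφ _ j rfl]
  rfl

/-- residual finiteness -/
lemma HasVRC.exists_normal_notMem (h : HasVRC P) (g : P) (hg : g ≠ 1) :
    ∃ N : Subgroup P, N.Normal ∧ N.FiniteIndex ∧ g ∉ N := by
  obtain ⟨K, hK, hle, ρ, hρ⟩ := h g
  have hgK : g ∈ K := hle (Subgroup.mem_zpowers g)
  have hρg : ρ ⟨g, hgK⟩ = ⟨g, Subgroup.mem_zpowers g⟩ := hρ ⟨g, Subgroup.mem_zpowers g⟩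
  obtain ⟨L, hL, hgL⟩ : ∃ L : Subgroup (Subgroup.zpowers g), L.FiniteIndex ∧
      (⟨g, Subgroup.mem_zpowers g⟩ : Subgroup.zpowers g) ∉ L := by
    by_cases hfin : IsOfFinOrder g
    · have : Finite (Subgroup.zpowers g) := by
        rw [← Nat.card_pos_iff.trans (and_iff_right ⟨1⟩)]
        rw [Nat.card_zpowers]
        exact hfin.orderOf_pos
      refine ⟨⊥, inferInstance, ?_⟩
      rw [Subgroup.mem_bot]
      intro hcon
      exact hg (congrArg Subtype.val hcon)
    · obtain ⟨φ, hφ⟩ := exists_expo g hfin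
      have h2 := finiteIndex_zpowers_ofAdd (c := 2) (by norm_num)
      refine ⟨(Subgroup.zpowers (Multiplicative.ofAdd (2 : ℤ))).comap φ, finiteIndex_comap _ _, ?_⟩
      rw [Subgroup.mem_comap, hφ _ 1 (by simp)]
      rintro ⟨j, hj⟩
      have : j * 2 = (1 : ℤ) := by
        have := congrArg Multiplicative.toAdd hj
        simpa using this
      omega
  have hL' := finiteIndex_map_subtype K hK (L.comap ρ) (finiteIndex_comap _ _)
  refine ⟨((L.comap ρ).map K.subtype).normalCore, inferInstance, inferInstance, ?_⟩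
  intro hcon
  have := Subgroup.normalCore_le _ hcon
  obtain ⟨y, hy, hyg⟩ := this
  have : y = ⟨g, hgK⟩ := Subtype.ext hyg
  subst this
  apply hgL
  have : ρ ⟨g, hgK⟩ ∈ L := hy
  rwa [hρg] at this

/-- cyclic subgroups are separable -/
lemma HasVRC.separable_zpowers (h : HasVRC P) (r x : P) (hx : x ∉ Subgroup.zpowers r) :
    ∃ N : Subgroup P, N.Normal ∧ N.FiniteIndex ∧ ∀ j : ℤ, r ^ j * x ∉ N := by
  obtain ⟨K, hK, hle, ρ, hρ⟩ := h r
  by_cases hxK : x ∈ K
  · set y := ρ ⟨x, hxK⟩ with hy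
    have hne : (y : P)⁻¹ * x ≠ 1 := by
      intro hcon
      rw [inv_mul_eq_one] at hcon
      apply hx
      rw [← hcon]
      exact y.2
    obtain ⟨M, hMn, hMf, hM⟩ := h.exists_normal_notMem _ hne
    let L : Subgroup P := (((M.comap (Subgroup.zpowers r).subtype).comap ρ).map K.subtype) ⊓ M
    have hLf : L.FiniteIndex := by
      have h1 : (M.comap (Subgroup.zpowers r).subtype).FiniteIndex := finiteIndex_comap _ _
      have h2 : ((M.comap (Subgroup.zpowers r).subtype).comap ρ).FiniteIndex :=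
        finiteIndex_comap _ _
      have h3 := finiteIndex_map_subtype K hK _ h2
      exact inferInstanceAs ((_ ⊓ _ : Subgroup P).FiniteIndex)
    refine ⟨L.normalCore, inferInstance, inferInstance, ?_⟩
    intro j hj
    obtain ⟨⟨n, hn, hnj⟩, hjM⟩ := Subgroup.normalCore_le _ hj
    apply hM
    have hrK : r ^ j ∈ K := hle ⟨j, rfl⟩
    have hn' : n = ⟨r ^ j, hrK⟩ * ⟨x, hxK⟩ := Subtype.ext hnj
    have h1 : ((ρ n : Subgroup.zpowers r) : P) ∈ M := hn
    rw [hn', map_mul] at h1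
    have h2 : ρ ⟨r ^ j, hrK⟩ = ⟨r ^ j, ⟨j, rfl⟩⟩ := hρ ⟨r ^ j, ⟨j, rfl⟩⟩
    rw [h2, ← hy] at h1
    have h3 : r ^ j * (y : P) ∈ M := h1
    have h4 : (y : P)⁻¹ * x = (r ^ j * (y : P))⁻¹ * (r ^ j * x) := by group
    rw [h4]
    exact M.mul_mem (M.inv_mem h3) hjM
  · refine ⟨K.normalCore, inferInstance, inferInstance, ?_⟩
    intro j hj
    have h1 := Subgroup.normalCore_le _ hj
    have hrK : r ^ j ∈ K := hle ⟨j, rfl⟩
    exact hxK ((K.mul_mem_cancel_left hrK).1 h1)

variable {R : Type w} [Group R]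

lemma exists_coset_rep (r : R) (x : R) :
    ∃ j : ℤ, x = (QuotientGroup.mk (s := Subgroup.zpowers r) x : R ⧸ Subgroup.zpowers r).out * r ^ j := by
  have h := QuotientGroup.mk_out_eq_mul (Subgroup.zpowers r) x
  obtain ⟨⟨_, ⟨j, rfl⟩⟩, hj⟩ := h
  refine ⟨-j, ?_⟩
  rw [hj]
  simp

/-- separability of virtually cyclic subgroups -/
lemma HasVRC.separable (h : HasVRC P) (i : R →* P) (r : R) (hr : (Subgroup.zpowers r).FiniteIndex)
    (p : P) (hp : p ∉ i.range) :
    ∃ N : Subgroup P, N.Normal ∧ N.FiniteIndex ∧ ∀ x : R, i x * p ∉ N := by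
  have hq : ∀ q : R ⧸ Subgroup.zpowers r, ∃ N : Subgroup P, N.Normal ∧ N.FiniteIndex ∧
      ∀ j : ℤ, (i r) ^ j * (p * i q.out) ∉ N := by
    intro q
    apply h.separable_zpowers
    rintro ⟨j, hj⟩
    apply hp
    refine ⟨r ^ j * q.out⁻¹, ?_⟩
    rw [map_mul, map_zpow, map_inv]
    have : (i r) ^ j = p * i q.out := hj
    rw [this]
    group
  choose N hNn hNf hN using hq
  refine ⟨⨅ q, N q, Subgroup.normal_iInf_normal hNn, Subgroup.finiteIndex_iInf hNf, ?_⟩
  intro x hx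
  obtain ⟨j, hj⟩ := exists_coset_rep r x
  set q : R ⧸ Subgroup.zpowers r := QuotientGroup.mk x with hqdef
  have h1 : i x * p ∈ N q := (Subgroup.mem_iInf.1 hx) q
  apply hN q j
  rw [hj, map_mul, map_zpow] at h1
  have h2 := (hNn q).mem_comm (a := i q.out) (b := i r ^ j * p) (by rw [← mul_assoc]; exact h1)
  rw [← mul_assoc]
  exact h2

/-- small normal subgroups meet `R` inside the cyclic subgroup generated by `r` -/
lemma HasVRC.exists_inter_le (h : HasVRC P) (i : R →* P) (hi : Function.Injective i) (r : R)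
    (hr : (Subgroup.zpowers r).FiniteIndex) :
    ∃ N : Subgroup P, N.Normal ∧ N.FiniteIndex ∧ N.comap i ≤ Subgroup.zpowers r := by
  classical
  have hq : ∀ q : R ⧸ Subgroup.zpowers r, ∃ N : Subgroup P, N.Normal ∧ N.FiniteIndex ∧
      (q.out ∉ Subgroup.zpowers r → ∀ j : ℤ, (i r) ^ j * (i q.out) ∉ N) := by
    intro q
    by_cases hqr : q.out ∈ Subgroup.zpowers r
    · exact ⟨⊤, inferInstance, inferInstance, fun hcon => absurd hqr hcon⟩
    · have h1 : i q.out ∉ Subgroup.zpowers (i r) := by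
        rintro ⟨j, hj⟩
        apply hqr
        refine ⟨j, hi ?_⟩
        rw [← hj]
        simp
      obtain ⟨N, h2, h3, h4⟩ := h.separable_zpowers _ _ h1
      exact ⟨N, h2, h3, fun _ => h4⟩
  choose N hNn hNf hN using hq
  refine ⟨⨅ q, N q, Subgroup.normal_iInf_normal hNn, Subgroup.finiteIndex_iInf hNf, ?_⟩
  intro x hx
  by_contra hxr
  obtain ⟨j, hj⟩ := exists_coset_rep r x
  set q : R ⧸ Subgroup.zpowers r := QuotientGroup.mk x with hqdef
  have hqr : q.out ∉ Subgroup.zpowers r := by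
    intro hcon
    apply hxr
    rw [hj]
    exact Subgroup.mul_mem _ hcon ⟨j, rfl⟩
  have h1 : i x ∈ N q := (Subgroup.mem_iInf.1 hx) q
  apply hN q hqr j
  rw [hj, map_mul, map_zpow] at h1
  exact (hNn q).mem_comm h1

/-- The potency lemma: the intersections with `R` of finite index normal subgroups of `P` contained
in a given one can be prescribed to be `⟨r ^ (n * l)⟩` for all `l ≥ 1`. -/
lemma HasVRC.potency (h : HasVRC P) (i : R →* P) (hi : Function.Injective i) (r : R)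
    (hr : (Subgroup.zpowers r).FiniteIndex) (hr0 : ¬ IsOfFinOrder r)
    (L : Subgroup P) (hLn : L.Normal) (hLf : L.FiniteIndex) :
    ∃ n : ℕ, 0 < n ∧ ∀ l : ℕ, 0 < l → ∃ N : Subgroup P, N.Normal ∧ N.FiniteIndex ∧ N ≤ L ∧
      N.comap i = Subgroup.zpowers (r ^ (n * l)) := by
  classical
  have hir0 : ¬ IsOfFinOrder (i r) := by
    rw [hi.isOfFinOrder_iff]; exact hr0
  obtain ⟨N1, hN1n, hN1f, hN1⟩ := h.exists_inter_le i hi r hr
  obtain ⟨N2, χ, hN2n, hN2f, hχ, hχr⟩ := h.exists_char (i r) hir0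
  let N : Subgroup P := L ⊓ N1 ⊓ N2
  have hNn : N.Normal := inferInstanceAs ((L ⊓ N1 ⊓ N2 : Subgroup P).Normal)
  have hNf : N.FiniteIndex := inferInstanceAs ((L ⊓ N1 ⊓ N2 : Subgroup P).FiniteIndex)
  have hNL : N ≤ L := inf_le_left.trans inf_le_left
  have hNN1 : N ≤ N1 := inf_le_left.trans inf_le_right
  have hχN : IsChar N χ := hχ.mono inf_le_right
  -- the exponent `n1`
  have hex : ∃ n : ℕ, 0 < n ∧ (i r) ^ n ∈ N := by
    obtain ⟨n, hn0, -, hn⟩ := Subgroup.exists_pow_mem_of_index_ne_zero hNf.index_ne_zero (i r)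
    exact ⟨n, hn0, hn⟩
  set n1 := Nat.find hex with hn1
  have hn10 : 0 < n1 := (Nat.find_spec hex).1
  have hn1N : (i r) ^ n1 ∈ N := (Nat.find_spec hex).2
  have hn1min : ∀ t : ℤ, (i r) ^ t ∈ N → (n1 : ℤ) ∣ t := by
    intro t ht
    have h1 : (i r) ^ (t % n1) ∈ N := by
      have h2 : t % n1 = t - n1 * (t / n1) := by
        have := Int.emod_add_mul_ediv t n1
        linarith
      rw [h2, zpow_sub, zpow_mul, zpow_natCast]
      exact N.mul_mem ht (N.inv_mem (N.zpow_mem hn1N _))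
    have h3 : 0 ≤ t % n1 := Int.emod_nonneg _ (by exact_mod_cast hn10.ne')
    have h4 : t % n1 < n1 := Int.emod_lt_of_pos _ (by exact_mod_cast hn10)
    by_contra hndvd
    have h5 : t % n1 ≠ 0 := fun hz => hndvd (Int.dvd_of_emod_eq_zero hz)
    have h6 : 0 < (t % n1).toNat := by omega
    have h7 : (t % n1).toNat < n1 := by omega
    apply Nat.find_min hex (m := (t % n1).toNat) h7
    refine ⟨h6, ?_⟩
    rw [← zpow_natCast]
    have h8 : (((t % n1).toNat : ℕ) : ℤ) = t % n1 := Int.toNat_of_nonneg h3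
    rw [h8]
    exact h1
  have hFin : Finite (P ⧸ N) := inferInstance
  have := Fintype.ofFinite (P ⧸ N)
  let κ : P ⧸ N → ℤ := fun x => χ (x.out⁻¹ * (i r) ^ n1 * x.out)
  let D : ℤ := Finset.univ.gcd κ
  have hconjN : ∀ (a : P), a ∈ N → ∀ p : P, p⁻¹ * a * p ∈ N := by
    intro a ha p
    have := hNn.conj_mem a ha p⁻¹
    simpa using this
  -- `χ (p⁻¹ a p)` only depends on the coset
  have hcoset : ∀ (a : P), a ∈ N → ∀ p : P,
      χ (p⁻¹ * a * p) = χ ((QuotientGroup.mk p : P ⧸ N).out⁻¹ * a * (QuotientGroup.mk p : P ⧸ N).out) := by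
    intro a ha p
    obtain ⟨m, hm⟩ := QuotientGroup.mk_out_eq_mul N p
    rw [hm]
    have h1 : (p * (m : P))⁻¹ * a * (p * m) = (m : P)⁻¹ * (p⁻¹ * a * p) * m := by group
    rw [h1, hχN.map_conj (hconjN a ha p) m.2]
  have hκ1 : κ (QuotientGroup.mk 1) = n1 := by
    have := hcoset _ hn1N 1
    change χ _ = _
    rw [← this]
    have h2 := hχr n1
    rw [zpow_natCast] at h2
    rw [inv_one, one_mul, mul_one, h2]
  have hD0 : D ≠ 0 := by
    intro hD
    have := (Finset.gcd_eq_zero_iff.1 hD) (QuotientGroup.mk 1) (Finset.mem_univ _)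
    rw [hκ1] at this
    exact hn10.ne' (by exact_mod_cast this)
  refine ⟨n1, hn10, fun l hl => ?_⟩
  let j : ℤ := D * l
  have hj0 : j ≠ 0 := mul_ne_zero hD0 (by exact_mod_cast hl.ne')
  -- the subgroup `N(j)`
  let Nj : Subgroup P :=
    { carrier := {a | a ∈ N ∧ ∀ p : P, j ∣ χ (p⁻¹ * a * p)}
      one_mem' := ⟨N.one_mem, fun p => by simp [hχN.map_one]⟩
      mul_mem' := by
        rintro a b ⟨ha, ha'⟩ ⟨hb, hb'⟩
        refine ⟨N.mul_mem ha hb, fun p => ?_⟩
        have h1 : p⁻¹ * (a * b) * p = (p⁻¹ * a * p) * (p⁻¹ * b * p) := by group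
        rw [h1, hχN.map_mul _ (hconjN a ha p) _ (hconjN b hb p)]
        exact dvd_add (ha' p) (hb' p)
      inv_mem' := by
        rintro a ⟨ha, ha'⟩
        refine ⟨N.inv_mem ha, fun p => ?_⟩
        have h1 : p⁻¹ * a⁻¹ * p = (p⁻¹ * a * p)⁻¹ := by group
        rw [h1, hχN.map_inv (hconjN a ha p)]
        exact (dvd_neg).2 (ha' p) }
  have hNjn : Nj.Normal := by
    refine ⟨?_⟩
    rintro a ⟨ha, ha'⟩ g
    refine ⟨hNn.conj_mem a ha g, fun p => ?_⟩
    have h1 : p⁻¹ * (g * a * g⁻¹) * p = (g⁻¹ * p)⁻¹ * a * (g⁻¹ * p) := by group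
    rw [h1]
    exact ha' _
  have hNjf : Nj.FiniteIndex := by
    have : NeZero j.natAbs := ⟨by simpa using hj0⟩
    let ψ : N →* Multiplicative (P ⧸ N → ZMod j.natAbs) :=
      { toFun := fun a => Multiplicative.ofAdd
          (fun x => ((χ (x.out⁻¹ * (a : P) * x.out) : ℤ) : ZMod j.natAbs))
        map_one' := by
          rw [← ofAdd_zero]
          congr 1
          funext x
          simp [hχN.map_one]
        map_mul' := by
          intro a b
          rw [← ofAdd_add]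
          congr 1
          funext x
          have h1 : x.out⁻¹ * ((a * b : N) : P) * x.out =
              (x.out⁻¹ * (a : P) * x.out) * (x.out⁻¹ * (b : P) * x.out) := by
            rw [Subgroup.coe_mul]; group
          rw [h1, hχN.map_mul _ (hconjN _ a.2 _) _ (hconjN _ b.2 _)]
          simp }
    have hker : ψ.ker.FiniteIndex := inferInstance
    have h1 := finiteIndex_map_subtype N hNf ψ.ker hker
    refine Subgroup.finiteIndex_of_le (H := ψ.ker.map N.subtype) ?_
    rintro _ ⟨a, ha, rfl⟩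
    refine ⟨a.2, fun p => ?_⟩
    have h2 : ψ a = 1 := ha
    have h3 := congrFun (congrArg Multiplicative.toAdd h2) (QuotientGroup.mk p)
    have h4 : ((χ ((QuotientGroup.mk p : P ⧸ N).out⁻¹ * (a : P) *
        (QuotientGroup.mk p : P ⧸ N).out) : ℤ) : ZMod j.natAbs) = 0 := h3
    rw [ZMod.intCast_zmod_eq_zero_iff_dvd] at h4
    rw [Subgroup.subtype_apply, hcoset _ a.2 p]
    exact (Int.natAbs_dvd).1 h4
  refine ⟨Nj, hNjn, hNjf, fun a ha => hNL ha.1, ?_⟩
  -- the intersection with `R`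
  have hirn : ∀ (t : ℤ) (p : P), χ (p⁻¹ * ((i r) ^ n1) ^ t * p) =
      t * χ (p⁻¹ * (i r) ^ n1 * p) := by
    intro t p
    have h1 : p⁻¹ * ((i r) ^ n1) ^ t * p = (p⁻¹ * (i r) ^ n1 * p) ^ t := by
      have := (conj_zpow (i := t) (a := p⁻¹) (b := (i r) ^ n1)).symm
      simpa using this
    rw [h1, hχN.map_zpow (hconjN _ hn1N p)]
  apply le_antisymm
  · intro x hx
    have hx1 : i x ∈ N := hx.1
    obtain ⟨t, rfl⟩ := hN1 (hNN1 hx1)
    have hx1' : (i r) ^ t ∈ N := by
      have : i ((fun x => r ^ x) t) = (i r) ^ t := by simp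
      rw [← this]; exact hx1
    obtain ⟨s, rfl⟩ := hn1min t hx1'
    have hdvd : ∀ y : P ⧸ N, j ∣ s * κ y := by
      intro y
      have h1 := hx.2 y.out
      have h2 : i ((fun x => r ^ x) ((n1 : ℤ) * s)) = ((i r) ^ n1) ^ s := by
        simp [zpow_mul]
      rw [h2, hirn] at h1
      exact h1
    have h3 : j ∣ s * D := by
      have h4 : j ∣ Finset.univ.gcd (fun y : P ⧸ N => s * κ y) := Finset.dvd_gcd fun y _ => hdvd y
      rw [Finset.gcd_mul_left] at h4
      have h5 : normalize s * Finset.univ.gcd κ ∣ s * D :=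
        mul_dvd_mul (normalize_dvd_iff.2 dvd_rfl) dvd_rfl
      exact h4.trans h5
    have h6 : (l : ℤ) ∣ s := by
      obtain ⟨q, hq⟩ := h3
      refine ⟨q, ?_⟩
      have : D * s = D * (l * q) := by
        calc D * s = s * D := by ring
          _ = j * q := hq
          _ = D * (l * q) := by simp only [j]; ring
      exact mul_left_cancel₀ hD0 this
    obtain ⟨q, rfl⟩ := h6
    refine ⟨q, ?_⟩
    simp only
    rw [← zpow_natCast, ← zpow_mul]
    congr 1
    push_cast
    ring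
  · rw [Subgroup.zpowers_le]
    have h1 : i (r ^ (n1 * l)) = ((i r) ^ n1) ^ (l : ℤ) := by
      rw [map_pow, pow_mul, zpow_natCast]
    refine ⟨?_, fun p => ?_⟩
    · rw [h1]
      exact N.zpow_mem hn1N _
    · rw [h1, hirn, hcoset _ hn1N p]
      have h2 : D ∣ κ (QuotientGroup.mk p) := Finset.gcd_dvd (Finset.mem_univ _)
      have h3 := mul_dvd_mul (dvd_refl (l : ℤ)) h2
      have h4 : j = l * D := by simp only [j]; ring
      rw [h4]
      exact h3

end Pool.Agent.Helper35.VRC
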